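import Pool.Agent.NH50.ST.Main

/-!
# Colouring lemmas for digraphs without a star with a directed leg
-/

set_option autoImplicit false

namespace Pool.Agent.NH50.ST

open Finset
open scoped Classical

/-- in-neighbours in `W` -/
noncomputable def inn {V : Type} (R : V → V → Prop) (W : Finset V) (v : V) : Finset V :=
  W.filter (fun u => R u v)

/-- out-neighbours in `W` -/
noncomputable def out {V : Type} (R : V → V → Prop) (W : Finset V) (v : V) : Finset V :=
  W.filter (fun u => R v u)

theorem mem_inn {V : Type} {R : V → V → Prop} {W : Finset V} {u v : V} :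
    u ∈ inn R W v ↔ u ∈ W ∧ R u v := by
  unfold inn
  rw [Finset.mem_filter]

theorem mem_out {V : Type} {R : V → V → Prop} {W : Finset V} {u v : V} :
    u ∈ out R W v ↔ u ∈ W ∧ R v u := by
  unfold out
  rw [Finset.mem_filter]

theorem out_mono {V : Type} {R : V → V → Prop} {W W' : Finset V} (h : W' ⊆ W) (v : V) :
    out R W' v ⊆ out R W v := Finset.filter_subset_filter _ h

theorem inn_mono {V : Type} {R : V → V → Prop} {W W' : Finset V} (h : W' ⊆ W) (v : V) :
    inn R W' v ⊆ inn R W v := Finset.filter_subset_filter _ h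

theorem sum_out_inn {V : Type} (R : V → V → Prop) (W : Finset V) :
    ∑ v ∈ W, (out R W v).card = ∑ v ∈ W, (inn R W v).card :=
  Finset.sum_card_bipartiteAbove_eq_sum_card_bipartiteBelow R

/-- an independent set has a colouring with one colour -/
theorem pcol_one {V : Type} (R : V → V → Prop) (W : Finset V)
    (h : ∀ a ∈ W, ∀ b ∈ W, ¬ R a b) : PCol R W 1 :=
  ⟨fun _ => 0, fun _ _ => Nat.one_pos, fun a ha b hb _ hR => by
    rcases hR with h' | h'
    · exact absurd h' (h a ha b hb)
    · exact absurd h' (h b hb a ha)⟩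

theorem pcol_empty {V : Type} (R : V → V → Prop) : PCol R ∅ 0 :=
  ⟨fun _ => 0, by simp, by simp⟩

theorem pcol_mono {V : Type} {R : V → V → Prop} {W W' : Finset V} {n m : ℕ} (h : PCol R W n)
    (hW : W' ⊆ W) (hn : n ≤ m) : PCol R W' m := by
  obtain ⟨f, f1, f2⟩ := h
  exact ⟨f, fun a ha => (f1 a (hW ha)).trans_le hn,
    fun a ha b hb hab hR => f2 a (hW ha) b (hW hb) hab hR⟩

/-- union of two coloured sets -/
theorem pcol_union {V : Type} {R : V → V → Prop} {X Y : Finset V} {n m : ℕ} (hX : PCol R X n)
    (hY : PCol R Y m) : PCol R (X ∪ Y) (n + m) := by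
  obtain ⟨f, f1, f2⟩ := hX
  obtain ⟨g, g1, g2⟩ := hY
  refine ⟨fun a => if a ∈ X then f a else n + g a, ?_, ?_⟩
  · intro a ha
    by_cases h : a ∈ X
    · simp only [h, if_true]
      have := f1 a h
      omega
    · simp only [h, if_false]
      have := g1 a ((Finset.mem_union.1 ha).resolve_left h)
      omega
  · intro a ha b hb hab hR
    by_cases h : a ∈ X <;> by_cases h' : b ∈ X
    · simp only [h, h', if_true]
      exact f2 a h b h' hab hR
    · simp only [h, h', if_true, if_false]
      have := f1 a h
      omega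
    · simp only [h, h', if_true, if_false]
      have := f1 b h'
      omega
    · simp only [h, h', if_false]
      have := g2 a ((Finset.mem_union.1 ha).resolve_left h) b
        ((Finset.mem_union.1 hb).resolve_left h') hab hR
      omega

/-- a vertex of small degree may be added -/
theorem pcol_erase {V : Type} {R : V → V → Prop} {W : Finset V} {n : ℕ} {v : V} (hv : v ∈ W)
    (h : PCol R (W.erase v) n) (hd : (inn R W v).card + (out R W v).card < n) : PCol R W n := by
  obtain ⟨f, hf1, hf2⟩ := h
  obtain ⟨c, hc, hc'⟩ : ∃ c ∈ Finset.range n, c ∉ (inn R W v ∪ out R W v).image f := by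
    refine Finset.exists_mem_notMem_of_card_lt_card ?_
    rw [Finset.card_range]
    exact lt_of_le_of_lt (Finset.card_image_le.trans (Finset.card_union_le _ _)) hd
  rw [Finset.mem_range] at hc
  have hc2 : ∀ u ∈ W, (R v u ∨ R u v) → f u ≠ c := by
    intro u hu h h'
    apply hc'
    rw [Finset.mem_image]
    refine ⟨u, ?_, h'⟩
    rw [Finset.mem_union, mem_inn, mem_out]
    rcases h with h | h
    · exact Or.inr ⟨hu, h⟩
    · exact Or.inl ⟨hu, h⟩
  refine ⟨Function.update f v c, ?_, ?_⟩
  · intro a ha
    by_cases h : a = v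
    · rw [h, Function.update_self]
      exact hc
    · rw [Function.update_of_ne h]
      exact hf1 a (Finset.mem_erase.2 ⟨h, ha⟩)
  · intro a ha b hb hab hR
    by_cases h : a = v
    · subst h
      rw [Function.update_self, Function.update_of_ne (Ne.symm hab)]
      exact (hc2 b hb hR).symm
    · by_cases h' : b = v
      · subst h'
        rw [Function.update_self, Function.update_of_ne hab]
        exact hc2 a ha hR.symm
      · rw [Function.update_of_ne h, Function.update_of_ne h']
        exact hf2 a (Finset.mem_erase.2 ⟨h, ha⟩) b (Finset.mem_erase.2 ⟨h', hb⟩) hab hR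

/-- list colouring: the vertices adjacent to `S` do not get the colour `0` -/
theorem list_col {V : Type} (R : V → V → Prop) (S : Finset V) (q : ℕ) (hq : 2 ≤ q)
    (A : Finset V)
    (hA : ∀ A' ⊆ A, A'.Nonempty → ∃ a ∈ A', (inn R A' a).card + (out R A' a).card <
      if ∃ s ∈ S, R a s ∨ R s a then 2 * q - 2 else 2 * q - 1) :
    ∀ (N : ℕ) (A' : Finset V), A' ⊆ A → A'.card = N →
      ∃ f : V → ℕ, (∀ a ∈ A', f a < 2 * q - 1) ∧
        (∀ a ∈ A', ∀ b ∈ A', a ≠ b → (R a b ∨ R b a) → f a ≠ f b) ∧
        ∀ a ∈ A', (∃ s ∈ S, R a s ∨ R s a) → f a ≠ 0 := by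
  intro N
  induction N with
  | zero =>
    intro A' _ hc
    rw [Finset.card_eq_zero] at hc
    subst hc
    exact ⟨fun _ => 0, by simp, by simp, by simp⟩
  | succ N ih =>
    intro A' hA' hc
    obtain ⟨v, hv, hd⟩ := hA A' hA' (by rw [← Finset.card_pos, hc]; omega)
    obtain ⟨f, hf1, hf2, hf3⟩ := ih (A'.erase v) ((Finset.erase_subset _ _).trans hA')
      (by rw [Finset.card_erase_of_mem hv, hc]; rfl)
    obtain ⟨L, hL⟩ : ∃ L : Finset ℕ, L = if ∃ s ∈ S, R v s ∨ R s v then
      (Finset.range (2 * q - 1)).erase 0 else Finset.range (2 * q - 1) := ⟨_, rfl⟩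
    have hLc : (if ∃ s ∈ S, R v s ∨ R s v then 2 * q - 2 else 2 * q - 1) ≤ L.card := by
      rw [hL]
      split_ifs
      · rw [Finset.card_erase_of_mem (by rw [Finset.mem_range]; omega), Finset.card_range]
        omega
      · rw [Finset.card_range]
    obtain ⟨c, hc1, hc'⟩ : ∃ c ∈ L, c ∉ (inn R A' v ∪ out R A' v).image f := by
      refine Finset.exists_mem_notMem_of_card_lt_card ?_
      exact lt_of_le_of_lt (Finset.card_image_le.trans (Finset.card_union_le _ _))
        (lt_of_lt_of_le hd hLc)
    have hc0 : c < 2 * q - 1 := by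
      rw [hL] at hc1
      split_ifs at hc1
      · exact Finset.mem_range.1 (Finset.mem_of_mem_erase hc1)
      · exact Finset.mem_range.1 hc1
    have hc3 : (∃ s ∈ S, R v s ∨ R s v) → c ≠ 0 := by
      intro h
      rw [hL, if_pos h] at hc1
      exact Finset.ne_of_mem_erase hc1
    have hc2 : ∀ u ∈ A', (R v u ∨ R u v) → f u ≠ c := by
      intro u hu h h'
      apply hc'
      rw [Finset.mem_image]
      refine ⟨u, ?_, h'⟩
      rw [Finset.mem_union, mem_inn, mem_out]
      rcases h with h | h
      · exact Or.inr ⟨hu, h⟩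
      · exact Or.inl ⟨hu, h⟩
    refine ⟨Function.update f v c, ?_, ?_, ?_⟩
    · intro a ha
      by_cases h : a = v
      · rw [h, Function.update_self]
        exact hc0
      · rw [Function.update_of_ne h]
        exact hf1 a (Finset.mem_erase.2 ⟨h, ha⟩)
    · intro a ha b hb hab hR
      by_cases h : a = v
      · subst h
        rw [Function.update_self, Function.update_of_ne (Ne.symm hab)]
        exact (hc2 b hb hR).symm
      · by_cases h' : b = v
        · subst h'
          rw [Function.update_self, Function.update_of_ne hab]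
          exact hc2 a ha hR.symm
        · rw [Function.update_of_ne h, Function.update_of_ne h']
          exact hf2 a (Finset.mem_erase.2 ⟨h, ha⟩) b (Finset.mem_erase.2 ⟨h', hb⟩) hab hR
    · intro a ha hs
      by_cases h : a = v
      · subst h
        rw [Function.update_self]
        exact hc3 hs
      · rw [Function.update_of_ne h]
        exact hf3 a (Finset.mem_erase.2 ⟨h, ha⟩) hs

/-- vertices of out-degree `< q` and special vertices -/
theorem col_AS {V : Type} (R : V → V → Prop) (hR : ∀ a b, R a b → ¬ R b a) (W A S : Finset V)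
    (q : ℕ) (hq : 2 ≤ q) (hAW : A ⊆ W) (hSW : S ⊆ W) (hAS : Disjoint A S)
    (hS0 : ∀ a ∈ S, ∀ b ∈ S, ¬ R a b) (hA : ∀ a ∈ A, (out R W a).card < q)
    (hS : ∀ s ∈ S,
      (∀ a ∈ W, ∀ w ∈ W, R s a → R a w → R s w ∧ (out R W s).card = q) ∨
      (∀ a ∈ W, ∀ w ∈ W, R s a → R a w → R w s)) :
    PCol R (A ∪ S) (2 * q - 1) := by
  have hirr : ∀ a, ¬ R a a := fun a h => hR a a h h
  have key : ∀ A' ⊆ A, A'.Nonempty → ∃ a ∈ A', (inn R A' a).card + (out R A' a).card <
      if ∃ s ∈ S, R a s ∨ R s a then 2 * q - 2 else 2 * q - 1 := by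
    intro A' hA' hne
    by_contra hcon
    push Not at hcon
    have hAo : ∀ a ∈ A', (out R A' a).card ≤ q - 1 := by
      intro a ha
      have h1 := Finset.card_le_card (out_mono (R := R) (hA'.trans hAW) a)
      have h2 := hA a (hA' ha)
      omega
    have hlow : ∀ a ∈ A', 2 * (q - 1) ≤ (inn R A' a).card + (out R A' a).card := by
      intro a ha
      have h1 := hcon a ha
      split_ifs at h1 <;> omega
    have hsum : ∑ a ∈ A', ((inn R A' a).card + (out R A' a).card) =
        2 * ∑ a ∈ A', (out R A' a).card := by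
      rw [Finset.sum_add_distrib, ← sum_out_inn]
      ring
    have hs1 : ∑ a ∈ A', (out R A' a).card ≤ ∑ a ∈ A', (q - 1) := Finset.sum_le_sum hAo
    have hs2 : ∑ a ∈ A', 2 * (q - 1) ≤ ∑ a ∈ A', ((inn R A' a).card + (out R A' a).card) :=
      Finset.sum_le_sum hlow
    have hs3 : ∑ a ∈ A', (out R A' a).card = ∑ a ∈ A', (q - 1) := by
      rw [hsum, ← Finset.mul_sum] at hs2
      omega
    have ho : ∀ a ∈ A', (out R A' a).card = q - 1 :=
      (Finset.sum_eq_sum_iff_of_le hAo).1 hs3
    have hs4 : ∑ a ∈ A', 2 * (q - 1) = ∑ a ∈ A', ((inn R A' a).card + (out R A' a).card) := by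
      rw [hsum, hs3, ← Finset.mul_sum]
    have hdeg : ∀ a ∈ A', 2 * (q - 1) = (inn R A' a).card + (out R A' a).card :=
      (Finset.sum_eq_sum_iff_of_le hlow).1 hs4
    have hadj : ∀ a ∈ A', ∃ s ∈ S, R a s ∨ R s a := by
      intro a ha
      by_contra hno
      have h1 := hcon a ha
      rw [if_neg hno] at h1
      have h2 := hdeg a ha
      omega
    have hclosed : ∀ a ∈ A', ∀ w ∈ W, R a w → w ∈ A' := by
      intro a ha w hw haw
      have h1 : out R A' a = out R W a := by
        refine Finset.eq_of_subset_of_card_le (out_mono (hA'.trans hAW) a) ?_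
        rw [ho a ha]
        have := hA a (hA' ha)
        omega
      have h2 : w ∈ out R W a := mem_out.2 ⟨hw, haw⟩
      rw [← h1] at h2
      exact (mem_out.1 h2).1
    have hnotS : ∀ x ∈ A', x ∉ S := fun x hx hxS => (Finset.disjoint_left.1 hAS) (hA' hx) hxS
    obtain ⟨a, ha⟩ := hne
    obtain ⟨s, hs, has⟩ := hadj a ha
    have hsa : R s a := by
      rcases has with h | h
      · exact absurd hs (hnotS s (hclosed a ha s (hSW hs) h))
      · exact h
    have haW : a ∈ W := hAW (hA' ha)
    obtain ⟨b, hb⟩ : (out R A' a).Nonempty := by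
      rw [← Finset.card_pos, ho a ha]
      omega
    have hb' := mem_out.1 hb
    have hbW : b ∈ W := hAW (hA' hb'.1)
    rcases hS s hs with h | h
    · have h1 : insert a (out R A' a) ⊆ out R W s := by
        intro x hx
        rw [Finset.mem_insert] at hx
        rcases hx with hx | hx
        · rw [hx]
          exact mem_out.2 ⟨haW, hsa⟩
        · have hx' := mem_out.1 hx
          have hxW : x ∈ W := hAW (hA' hx'.1)
          exact mem_out.2 ⟨hxW, (h a haW x hxW hsa hx'.2).1⟩
      have hna : a ∉ out R A' a := fun h' => hirr a (mem_out.1 h').2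
      have h2 : insert a (out R A' a) = out R W s := by
        refine Finset.eq_of_subset_of_card_le h1 ?_
        rw [Finset.card_insert_of_notMem hna, ho a ha, (h a haW b hbW hsa hb'.2).2]
        omega
      have h3 : out R A' b ⊆ (out R A' a).erase b := by
        intro x hx
        have hx' := mem_out.1 hx
        have hxW : x ∈ W := hAW (hA' hx'.1)
        have hsb : R s b := (h a haW b hbW hsa hb'.2).1
        have h4 : x ∈ out R W s := mem_out.2 ⟨hxW, (h b hbW x hxW hsb hx'.2).1⟩
        rw [← h2, Finset.mem_insert] at h4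
        rw [Finset.mem_erase]
        refine ⟨fun h5 => hirr b (by rw [h5] at hx'; exact hx'.2), ?_⟩
        rcases h4 with h4 | h4
        · rw [h4] at hx'
          exact absurd hx'.2 (hR a b hb'.2)
        · exact h4
      have h5 := Finset.card_le_card h3
      rw [Finset.card_erase_of_mem hb, ho a ha, ho b hb'.1] at h5
      omega
    · have h1 := h a haW b hbW hsa hb'.2
      exact hnotS s (hclosed b hb'.1 s (hSW hs) h1) hs
  obtain ⟨f, f1, f2, f3⟩ := list_col R S q hq A key _ A (Finset.Subset.refl _) rfl
  refine ⟨fun a => if a ∈ S then 0 else f a, ?_, ?_⟩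
  · intro a ha
    by_cases h : a ∈ S
    · simp only [h, if_true]
      omega
    · simp only [h, if_false]
      exact f1 a ((Finset.mem_union.1 ha).resolve_right h)
  · intro a ha b hb hab hab'
    by_cases h : a ∈ S <;> by_cases h' : b ∈ S
    · exfalso
      rcases hab' with h'' | h''
      · exact hS0 a h b h' h''
      · exact hS0 b h' a h h''
    · simp only [h, h', if_true, if_false]
      exact (f3 b ((Finset.mem_union.1 hb).resolve_right h') ⟨a, h, hab'.symm⟩).symm
    · simp only [h, h', if_true, if_false]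
      exact f3 a ((Finset.mem_union.1 ha).resolve_right h) ⟨b, h', hab'⟩
    · simp only [h, h', if_false]
      exact f2 a ((Finset.mem_union.1 ha).resolve_right h) b
        ((Finset.mem_union.1 hb).resolve_right h') hab hab'

/-- vertices of in-degree `< p` and special vertices of in-degree `p` -/
theorem col_BS {V : Type} (R : V → V → Prop) (W B S : Finset V) (p : ℕ) (hp : 2 ≤ p)
    (hBW : B ⊆ W) (hB : ∀ b ∈ B, (inn R W b).card < p) (hS0 : ∀ a ∈ S, ∀ b ∈ S, ¬ R a b)
    (hSB : ∀ s ∈ S, ∀ b ∈ B, ¬ R s b) (hS : ∀ s ∈ S, (inn R W s).card ≤ p) :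
    PCol R (B ∪ S) (2 * p - 1) := by
  obtain ⟨f, f1, f2⟩ := pcol_out (fun a b => R b a) p _ B rfl (fun v hv =>
    lt_of_le_of_lt (Finset.card_le_card (inn_mono (R := R) hBW v)) (hB v hv))
  have hc : ∀ s : V, ∃ c : ℕ, s ∈ S → c < 2 * p - 1 ∧ ∀ b ∈ B, R b s → f b ≠ c := by
    intro s
    by_cases hs : s ∈ S
    · obtain ⟨c, hc, hc'⟩ : ∃ c ∈ Finset.range (2 * p - 1), c ∉ (inn R B s).image f := by
        refine Finset.exists_mem_notMem_of_card_lt_card ?_
        rw [Finset.card_range]
        have h1 := Finset.card_le_card (inn_mono (R := R) hBW s)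
        have h2 := hS s hs
        have h3 : ((inn R B s).image f).card ≤ (inn R B s).card := Finset.card_image_le
        omega
      refine ⟨c, fun _ => ⟨Finset.mem_range.1 hc, fun b hb hbs h => hc' ?_⟩⟩
      rw [Finset.mem_image]
      exact ⟨b, mem_inn.2 ⟨hb, hbs⟩, h⟩
    · exact ⟨0, fun h => absurd h hs⟩
  choose c hc using hc
  refine ⟨fun a => if a ∈ S then c a else f a, ?_, ?_⟩
  · intro a ha
    by_cases h : a ∈ S
    · simp only [h, if_true]
      exact (hc a h).1
    · simp only [h, if_false]
      exact f1 a ((Finset.mem_union.1 ha).resolve_right h)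
  · intro a ha b hb hab hab'
    by_cases h : a ∈ S <;> by_cases h' : b ∈ S
    · exfalso
      rcases hab' with h'' | h''
      · exact hS0 a h b h' h''
      · exact hS0 b h' a h h''
    · simp only [h, h', if_true, if_false]
      have hbB := (Finset.mem_union.1 hb).resolve_right h'
      rcases hab' with h'' | h''
      · exact absurd h'' (hSB a h b hbB)
      · exact ((hc a h).2 b hbB h'').symm
    · simp only [h, h', if_true, if_false]
      have haB := (Finset.mem_union.1 ha).resolve_right h
      rcases hab' with h'' | h''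
      · exact (hc b h').2 a haB h''
      · exact absurd h'' (hSB b h' a haB)
    · simp only [h, h', if_false]
      exact f2 a ((Finset.mem_union.1 ha).resolve_right h) b
        ((Finset.mem_union.1 hb).resolve_right h') hab hab'.symm

end Pool.Agent.NH50.ST
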