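import Pool.Agent.NH50.ST.Col

/-!
# Digraphs without a star with a directed leg of length two
-/

set_option autoImplicit false

namespace Pool.Agent.NH50.ST

open Finset
open scoped Classical

/-- `W` contains the star with `p` in-leaves, `q - 1` out-leaves and a directed leg of length two
which leaves the centre -/
def Has {V : Type} (R : V → V → Prop) (W : Finset V) (p q : ℕ) : Prop :=
  ∃ v ∈ W, ∃ u ∈ W, ∃ w ∈ W, ∃ P Q : Finset V, P ⊆ inn R W v ∧ Q ⊆ out R W v ∧ P.card = p ∧
    Q.card + 1 = q ∧ R v u ∧ R u w ∧ u ∉ Q ∧ w ∉ P ∧ w ∉ Q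

theorem has_mono {V : Type} {R : V → V → Prop} {W W' : Finset V} {p q : ℕ} (h : W' ⊆ W)
    (hh : Has R W' p q) : Has R W p q := by
  obtain ⟨v, hv, u, hu, w, hw, P, Q, h1, h2, h3⟩ := hh
  exact ⟨v, h hv, u, h hu, w, h hw, P, Q, h1.trans (inn_mono h v), h2.trans (out_mono h v), h3⟩

theorem free2 {V : Type} {R : V → V → Prop} (hR : ∀ a b, R a b → ¬ R b a) {W : Finset V} {p q : ℕ}
    (hq : 1 ≤ q) (hno : ¬ Has R W p q) {v u w : V} (hv : v ∈ W) (hu : u ∈ W) (hw : w ∈ W)
    (hp : p ≤ (inn R W v).card) (hq' : q ≤ (out R W v).card) (hvu : R v u) (huw : R u w) :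
    (R v w ∧ (out R W v).card = q) ∨ (R w v ∧ (inn R W v).card = p) := by
  by_contra hcon
  rw [not_or, not_and, not_and] at hcon
  apply hno
  have hirr : ∀ a, ¬ R a a := fun a h => hR a a h h
  have huO : u ∈ out R W v := mem_out.2 ⟨hu, hvu⟩
  have hwu : w ≠ u := fun h => hirr u (by rw [h] at huw; exact huw)
  have h1 : p ≤ ((inn R W v).erase w).card := by
    by_cases h : w ∈ inn R W v
    · rw [Finset.card_erase_of_mem h]
      have := hcon.2 (mem_inn.1 h).2
      omega
    · rw [Finset.erase_eq_of_notMem h]
      exact hp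
  have h2 : q - 1 ≤ (((out R W v).erase u).erase w).card := by
    by_cases h : w ∈ out R W v
    · rw [Finset.card_erase_of_mem (Finset.mem_erase.2 ⟨hwu, h⟩), Finset.card_erase_of_mem huO]
      have := hcon.1 (mem_out.1 h).2
      omega
    · rw [Finset.erase_eq_of_notMem (fun h' => h (Finset.mem_of_mem_erase h')),
        Finset.card_erase_of_mem huO]
      omega
  obtain ⟨P, hP, hPc⟩ := Finset.exists_subset_card_eq h1
  obtain ⟨Q, hQ, hQc⟩ := Finset.exists_subset_card_eq h2
  refine ⟨v, hv, u, hu, w, hw, P, Q, hP.trans (Finset.erase_subset _ _),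
    hQ.trans ((Finset.erase_subset _ _).trans (Finset.erase_subset _ _)), hPc, by omega, hvu, huw,
    ?_, ?_, ?_⟩
  · intro h
    have := hQ h
    rw [Finset.mem_erase, Finset.mem_erase] at this
    exact this.2.1 rfl
  · intro h
    exact (Finset.mem_erase.1 (hP h)).1 rfl
  · intro h
    exact (Finset.mem_erase.1 (hQ h)).1 rfl

/-- the number of colours -/
def bd (p q : ℕ) : ℕ := 2 * p - 1 + (2 * q - 1) + (if q = 1 then 1 else 0)

theorem col_leg {V : Type} (R : V → V → Prop) (hR : ∀ a b, R a b → ¬ R b a) (p q : ℕ)
    (hq : 1 ≤ q) : ∀ (N : ℕ) (W : Finset V), W.card = N → ¬ Has R W p q → PCol R W (bd p q) := by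
  intro N
  induction N with
  | zero =>
    intro W hW _
    rw [Finset.card_eq_zero] at hW
    subst hW
    exact ⟨fun _ => 0, by simp, by simp⟩
  | succ N ih =>
    intro W hW hno
    by_cases hsm : ∃ v ∈ W, (inn R W v).card + (out R W v).card < bd p q
    · obtain ⟨v, hv, hd⟩ := hsm
      exact pcol_erase hv (ih (W.erase v) (by rw [Finset.card_erase_of_mem hv, hW]; rfl)
        (fun h => hno (has_mono (Finset.erase_subset _ _) h))) hd
    push Not at hsm
    have hirr : ∀ a, ¬ R a a := fun a h => hR a a h h
    obtain ⟨A, hA⟩ : ∃ A, A = W.filter (fun v => (out R W v).card < q) := ⟨_, rfl⟩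
    obtain ⟨B, hB⟩ : ∃ B, B = W.filter (fun v => q ≤ (out R W v).card ∧ (inn R W v).card < p) :=
      ⟨_, rfl⟩
    obtain ⟨S, hS⟩ : ∃ S, S = W.filter (fun v => q ≤ (out R W v).card ∧ p ≤ (inn R W v).card ∧
      (p < (inn R W v).card ∨ p = 0)) := ⟨_, rfl⟩
    obtain ⟨D, hD⟩ : ∃ D, D = W.filter (fun v => q ≤ (out R W v).card ∧ (inn R W v).card = p ∧
      1 ≤ p) := ⟨_, rfl⟩
    have mA : ∀ v, v ∈ A ↔ v ∈ W ∧ (out R W v).card < q := fun v => by rw [hA, Finset.mem_filter]
    have mB : ∀ v, v ∈ B ↔ v ∈ W ∧ q ≤ (out R W v).card ∧ (inn R W v).card < p :=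
      fun v => by rw [hB, Finset.mem_filter]
    have mS : ∀ v, v ∈ S ↔ v ∈ W ∧ q ≤ (out R W v).card ∧ p ≤ (inn R W v).card ∧
      (p < (inn R W v).card ∨ p = 0) := fun v => by rw [hS, Finset.mem_filter]
    have mD : ∀ v, v ∈ D ↔ v ∈ W ∧ q ≤ (out R W v).card ∧ (inn R W v).card = p ∧ 1 ≤ p :=
      fun v => by rw [hD, Finset.mem_filter]
    have hcov : W ⊆ (A ∪ S) ∪ (B ∪ D) := by
      intro v hv
      rw [Finset.mem_union, Finset.mem_union, Finset.mem_union, mA, mS, mB, mD]
      by_cases h1 : (out R W v).card < q
      · exact Or.inl (Or.inl ⟨hv, h1⟩)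
      · by_cases h2 : (inn R W v).card < p
        · exact Or.inr (Or.inl ⟨hv, by omega, h2⟩)
        · by_cases h3 : p < (inn R W v).card ∨ p = 0
          · exact Or.inl (Or.inr ⟨hv, by omega, by omega, h3⟩)
          · exact Or.inr (Or.inr ⟨hv, by omega, by omega, by omega⟩)
    -- the special vertices of the first kind
    have hS1 : ∀ v ∈ S, ∀ u ∈ W, ∀ w ∈ W, R v u → R u w → R v w ∧ (out R W v).card = q := by
      intro v hv u hu w hw hvu huw
      have h1 := (mS v).1 hv
      rcases free2 hR hq hno h1.1 hu hw h1.2.2.1 h1.2.1 hvu huw with h | h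
      · exact h
      · exfalso
        have h2 : 1 ≤ (inn R W v).card := Finset.card_pos.2 ⟨w, mem_inn.2 ⟨hw, h.1⟩⟩
        rcases h1.2.2.2 with h3 | h3 <;> omega
    have hSA : ∀ v ∈ S, ∀ u ∈ W, R v u → (out R W u).card < q := by
      intro v hv u hu hvu
      by_cases h : (out R W u).card = 0
      · omega
      · obtain ⟨w, hw⟩ := Finset.card_pos.1 (Nat.pos_of_ne_zero h)
        have hw' := mem_out.1 hw
        have h1 := (hS1 v hv u hu w hw'.1 hvu hw'.2).2
        have h2 : out R W u ⊆ (out R W v).erase u := by
          intro x hx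
          have hx' := mem_out.1 hx
          rw [Finset.mem_erase]
          exact ⟨fun h' => hirr u (by rw [h'] at hx'; exact hx'.2),
            mem_out.2 ⟨hx'.1, (hS1 v hv u hu x hx'.1 hvu hx'.2).1⟩⟩
        have h3 := Finset.card_le_card h2
        rw [Finset.card_erase_of_mem (mem_out.2 ⟨hu, hvu⟩), h1] at h3
        omega
    have hbd : p + q < bd p q ∨ p = 0 := by
      unfold bd
      by_cases h : q = 1
      · rw [if_pos h]
        omega
      · rw [if_neg h]
        omega
    -- the special vertices of the second kind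
    have hD1 : ∀ v ∈ D, ∀ u ∈ W, ∀ w ∈ W, R v u → R u w → R w v := by
      intro v hv u hu w hw hvu huw
      have h1 := (mD v).1 hv
      rcases free2 hR hq hno h1.1 hu hw h1.2.2.1.ge h1.2.1 hvu huw with h | h
      · exfalso
        have h2 := hsm v h1.1
        rcases hbd with h3 | h3 <;> omega
      · exact h.1
    have hDo : ∀ v ∈ D, ∀ u ∈ W, R v u → (out R W u).card ≤ p := by
      intro v hv u hu hvu
      rw [← ((mD v).1 hv).2.2.1]
      refine Finset.card_le_card fun x hx => ?_
      have hx' := mem_out.1 hx
      exact mem_inn.2 ⟨hx'.1, hD1 v hv u hu x hx'.1 hvu hx'.2⟩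
    have hDi : ∀ v ∈ D, ∀ u ∈ W, R v u → p < (inn R W u).card := by
      intro v hv u hu hvu
      have h1 := hDo v hv u hu hvu
      have h2 := hsm u hu
      have h3 := ((mD v).1 hv).2.2.2
      unfold bd at h2
      by_cases h : q = 1
      · rw [if_pos h] at h2
        omega
      · rw [if_neg h] at h2
        omega
    have hAW : A ⊆ W := fun v hv => ((mA v).1 hv).1
    have hBW : B ⊆ W := fun v hv => ((mB v).1 hv).1
    have hSW : S ⊆ W := fun v hv => ((mS v).1 hv).1
    have hDW : D ⊆ W := fun v hv => ((mD v).1 hv).1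
    have hS0 : ∀ a ∈ S, ∀ b ∈ S, ¬ R a b := by
      intro a ha b hb hab
      have h1 := hSA a ha b (hSW hb) hab
      have h2 := ((mS b).1 hb).2.1
      omega
    have hBD : 2 ≤ p → PCol R (B ∪ D) (2 * p - 1) := by
      intro hp
      refine col_BS R W B D p hp hBW (fun b hb => ((mB b).1 hb).2.2) ?_ ?_ ?_
      · intro a ha b hb hab
        have h1 := hDi a ha b (hDW hb) hab
        have h2 := ((mD b).1 hb).2.2.1
        omega
      · intro a ha b hb hab
        have h1 := hDi a ha b (hBW hb) hab
        have h2 := ((mB b).1 hb).2.2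
        omega
      · intro s hs
        exact ((mD s).1 hs).2.2.1.le
    have hBp : PCol R B (2 * p - 1) := by
      obtain ⟨f, f1, f2⟩ := pcol_out (fun a b => R b a) p _ B rfl (fun v hv =>
        lt_of_le_of_lt (Finset.card_le_card (inn_mono (R := R) hBW v)) ((mB v).1 hv).2.2)
      exact ⟨f, f1, fun a ha b hb hab hR' => f2 a ha b hb hab hR'.symm⟩
    have hAo : ∀ a ∈ A, (out R W a).card < q := fun a ha => ((mA a).1 ha).2
    by_cases hq1 : q = 1
    · -- `q = 1`
      have hA1 : PCol R A 1 := pcol_one R A fun a ha b hb hab => by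
        have h1 := hAo a ha
        have h2 : 1 ≤ (out R W a).card := Finset.card_pos.2 ⟨b, mem_out.2 ⟨hAW hb, hab⟩⟩
        omega
      have hb : bd p q = 1 + 1 + (2 * p - 1) := by
        unfold bd
        rw [if_pos hq1, hq1]
        omega
      rw [hb]
      rcases Nat.lt_or_ge p 2 with hp | hp
      · rcases Nat.lt_or_ge p 1 with hp0 | hp1
        · -- `p = 0`
          refine pcol_mono (pcol_union hA1 (pcol_one R S hS0)) (fun v hv => ?_) (by omega)
          have h1 := hcov hv
          rw [Finset.mem_union (s := A ∪ S), Finset.mem_union (s := B), mB, mD] at h1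
          rcases h1 with h1 | h1 | h1
          · exact h1
          · omega
          · omega
        · -- `p = 1`
          have hp' : p = 1 := by omega
          obtain ⟨D1, hD1'⟩ : ∃ D1, D1 = D.filter (fun v => ∃ x ∈ B, R x v) := ⟨_, rfl⟩
          obtain ⟨D2, hD2'⟩ : ∃ D2, D2 = D.filter (fun v => ¬ ∃ x ∈ B, R x v) := ⟨_, rfl⟩
          have mD1 : ∀ v, v ∈ D1 ↔ v ∈ D ∧ ∃ x ∈ B, R x v := fun v => by
            rw [hD1', Finset.mem_filter]
          have mD2 : ∀ v, v ∈ D2 ↔ v ∈ D ∧ ¬ ∃ x ∈ B, R x v := fun v => by
            rw [hD2', Finset.mem_filter]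
          have hX1 : PCol R (S ∪ D1) 1 := by
            have hout : ∀ a ∈ S ∪ D1, ∀ b ∈ W, R a b → (out R W b).card < q := by
              intro a ha b hb hab
              rw [Finset.mem_union, mD1] at ha
              rcases ha with ha | ⟨ha, x, hx, hxa⟩
              · exact hSA a ha b hb hab
              · by_contra hcon
                obtain ⟨w, hw⟩ := Finset.card_pos.1 (show 0 < (out R W b).card by omega)
                have hw' := mem_out.1 hw
                have h1 := hD1 a ha b hb w hw'.1 hab hw'.2
                have h2 : (inn R W a).card = 1 := by rw [((mD a).1 ha).2.2.1, hp']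
                obtain ⟨y, hy⟩ := Finset.card_eq_one.1 h2
                have h3 : x ∈ inn R W a := mem_inn.2 ⟨hBW hx, hxa⟩
                have h4 : w ∈ inn R W a := mem_inn.2 ⟨hw'.1, h1⟩
                rw [hy, Finset.mem_singleton] at h3 h4
                have h5 := ((mB x).1 hx).2.2
                have h6 : 1 ≤ (inn R W x).card :=
                  Finset.card_pos.2 ⟨b, mem_inn.2 ⟨hb, by rw [h3, ← h4]; exact hw'.2⟩⟩
                omega
            refine pcol_one R _ fun a ha b hb hab => ?_
            rw [Finset.mem_union] at hb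
            rcases hb with hb | hb
            · have h1 := hout a ha b (hSW hb) hab
              have h2 := ((mS b).1 hb).2.1
              omega
            · have hbD := ((mD1 b).1 hb).1
              have h1 := hout a ha b (hDW hbD) hab
              have h2 := ((mD b).1 hbD).2.1
              omega
          have hX2 : PCol R (B ∪ D2) 1 := by
            refine pcol_one R _ fun a ha b hb hab => ?_
            rw [Finset.mem_union] at ha hb
            have haW : a ∈ W := by
              rcases ha with ha | ha
              · exact hBW ha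
              · exact hDW ((mD2 a).1 ha).1
            rcases hb with hb | hb
            · have h1 := ((mB b).1 hb).2.2
              have h2 : 1 ≤ (inn R W b).card := Finset.card_pos.2 ⟨a, mem_inn.2 ⟨haW, hab⟩⟩
              omega
            · have hb' := (mD2 b).1 hb
              rcases ha with ha | ha
              · exact hb'.2 ⟨a, ha, hab⟩
              · have h1 := hDi a ((mD2 a).1 ha).1 b (hDW hb'.1) hab
                have h2 := ((mD b).1 hb'.1).2.2.1
                omega
          refine pcol_mono (pcol_union (pcol_union hA1 hX1) hX2) (fun v hv => ?_) (by omega)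
          have h1 := hcov hv
          simp only [Finset.mem_union, mD1, mD2] at h1 ⊢
          rcases h1 with (h1 | h1) | h1 | h1
          · exact Or.inl (Or.inl h1)
          · exact Or.inl (Or.inr (Or.inl h1))
          · exact Or.inr (Or.inl h1)
          · by_cases h2 : ∃ x ∈ B, R x v
            · exact Or.inl (Or.inr (Or.inr ⟨h1, h2⟩))
            · exact Or.inr (Or.inr ⟨h1, h2⟩)
      · -- `p ≥ 2`
        exact pcol_mono (pcol_union (pcol_union hA1 (pcol_one R S hS0)) (hBD hp)) hcov le_rfl
    · -- `q ≥ 2`
      have hb : bd p q = 2 * q - 1 + (2 * p - 1) := by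
        unfold bd
        rw [if_neg hq1]
        omega
      rw [hb]
      rcases Nat.lt_or_ge p 2 with hp | hp
      · have hDA : ∀ v ∈ D, ∀ u ∈ W, R v u → (out R W u).card < q := by
          intro v hv u hu hvu
          have := hDo v hv u hu hvu
          omega
        have hall : ∀ v ∈ S ∪ D, ∀ u ∈ W, R v u → (out R W u).card < q := by
          intro v hv
          rcases Finset.mem_union.1 hv with h | h
          · exact hSA v h
          · exact hDA v h
        have hge : ∀ v ∈ S ∪ D, v ∈ W ∧ q ≤ (out R W v).card := by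
          intro v hv
          rcases Finset.mem_union.1 hv with h | h
          · exact ⟨hSW h, ((mS v).1 h).2.1⟩
          · exact ⟨hDW h, ((mD v).1 h).2.1⟩
        have h1 : PCol R (A ∪ (S ∪ D)) (2 * q - 1) := by
          refine col_AS R hR W A (S ∪ D) q (by omega) hAW (fun v hv => (hge v hv).1) ?_ ?_ hAo ?_
          · rw [Finset.disjoint_left]
            intro v hv hv'
            have h2 := hAo v hv
            have h3 := (hge v hv').2
            omega
          · intro a ha b hb hab
            have h2 := hall a ha b (hge b hb).1 hab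
            have h3 := (hge b hb).2
            omega
          · intro s hs
            rcases Finset.mem_union.1 hs with h | h
            · exact Or.inl fun a ha w hw => hS1 s h a ha w hw
            · exact Or.inr fun a ha w hw => hD1 s h a ha w hw
        refine pcol_mono (pcol_union h1 hBp) (fun v hv => ?_) le_rfl
        have h2 := hcov hv
        simp only [Finset.mem_union] at h2 ⊢
        tauto
      · have h1 : PCol R (A ∪ S) (2 * q - 1) := by
          refine col_AS R hR W A S q (by omega) hAW hSW ?_ hS0 hAo ?_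
          · rw [Finset.disjoint_left]
            intro v hv hv'
            have h2 := hAo v hv
            have h3 := ((mS v).1 hv').2.1
            omega
          · intro s hs
            exact Or.inl fun a ha w hw => hS1 s hs a ha w hw
        exact pcol_mono (pcol_union h1 (hBD hp)) hcov le_rfl

end Pool.Agent.NH50.ST
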