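import Pool.Agent.NH50.ST.Leg

/-!
# The thresholds of a star with a directed leg of length two
-/

set_option autoImplicit false

namespace Pool.Agent.NH50.ST

open Finset
open scoped Classical

/-- `T` is the oriented tree with centre `z`, a leg `z → u → w`, and further leaves at `z` -/
structure IsLeg {k : ℕ} (T : Digraph (Fin k)) (z u w : Fin k) : Prop where
  asymm : ∀ a b, T.Adj a b → ¬ T.Adj b a
  zu : T.Adj z u
  uw : T.Adj u w
  wz : ¬ T.Adj z w ∧ ¬ T.Adj w z
  arcs : ∀ a b, T.Adj a b → a = z ∨ b = z ∨ (a = u ∧ b = w)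
  leaf : ∀ a, a ≠ z → a ≠ w → T.Adj a z ∨ T.Adj z a

/-- a configuration in `G` gives a copy of the tree -/
theorem embed2 {k m : ℕ} (T : Digraph (Fin k)) (z u w : Fin k) (hT : IsLeg T z u w)
    (G : Digraph (Fin m)) (hG : ∀ a b, G.Adj a b → ¬ G.Adj b a)
    (h : Has G.Adj univ (univ.filter (fun a => T.Adj a z)).card
      (univ.filter (fun a => T.Adj z a)).card) :
    ∃ f : Fin k → Fin m, Function.Injective f ∧ ∀ a b, T.Adj a b → G.Adj (f a) (f b) := by
  obtain ⟨v, -, u', -, w', -, P, Q, hP, hQ, hPc, hQc, hvu, huw, huQ, hwP, hwQ⟩ := h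
  have hTirr : ∀ a, ¬ T.Adj a a := fun a h => hT.asymm a a h h
  have hGirr : ∀ a, ¬ G.Adj a a := fun a h => hG a a h h
  have hwz : w ≠ z := fun h => by
    have := hT.uw
    rw [h] at this
    exact hT.asymm z u hT.zu this
  have huz : u ≠ z := fun h => by
    have := hT.zu
    rw [h] at this
    exact hTirr z this
  have huw' : u ≠ w := fun h => by
    have := hT.uw
    rw [h] at this
    exact hTirr w this
  have e1 : Nonempty ({a // T.Adj a z} ↪ {x // x ∈ P}) := by
    refine Function.Embedding.nonempty_of_card_le ?_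
    rw [Fintype.card_subtype, Fintype.card_coe, hPc]
  have e2 : Nonempty ({a // T.Adj z a ∧ a ≠ u} ↪ {x // x ∈ Q}) := by
    refine Function.Embedding.nonempty_of_card_le ?_
    rw [Fintype.card_subtype, Fintype.card_coe]
    have h1 : (univ.filter (fun a => T.Adj z a ∧ a ≠ u)) =
        (univ.filter (fun a => T.Adj z a)).erase u := by
      ext a
      simp only [Finset.mem_filter, Finset.mem_univ, true_and, Finset.mem_erase]
      exact and_comm
    rw [h1, Finset.card_erase_of_mem (Finset.mem_filter.2 ⟨Finset.mem_univ _, hT.zu⟩)]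
    have h2 : (univ.filter (fun a => T.Adj z a)).card - 1 ≤ Q.card := by omega
    exact h2
  obtain ⟨e⟩ := e1
  obtain ⟨e'⟩ := e2
  obtain ⟨f, hf⟩ : ∃ f : Fin k → Fin m, f = fun a => if h : T.Adj a z then (e ⟨a, h⟩ : Fin m) else
    if h' : T.Adj z a ∧ a ≠ u then (e' ⟨a, h'⟩ : Fin m) else
      if a = u then u' else if a = w then w' else v := ⟨_, rfl⟩
  have f1 : ∀ a (h : T.Adj a z), f a = e ⟨a, h⟩ := fun a h => by
    rw [hf]; simp only [h, dif_pos]
  have f2 : ∀ a (h : T.Adj z a ∧ a ≠ u), f a = e' ⟨a, h⟩ := fun a h => by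
    have h' : ¬ T.Adj a z := fun h' => hT.asymm a z h' h.1
    rw [hf]
    simp only [h', dif_neg, not_false_iff, h, dif_pos, ne_eq, and_self]
  have f3 : f u = u' := by
    have h' : ¬ T.Adj u z := hT.asymm z u hT.zu
    rw [hf]
    simp only [h', dif_neg, not_false_iff, ne_eq, not_true_eq_false, and_false, if_true]
  have f4 : f w = w' := by
    rw [hf]
    simp only [hT.wz.1, hT.wz.2, dif_neg, not_false_iff, false_and, huw'.symm, if_false, if_true]
  have f5 : f z = v := by
    rw [hf]
    simp only [hTirr z, dif_neg, not_false_iff, false_and, huz.symm, hwz.symm, if_false]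
  have gP : ∀ a, T.Adj a z → f a ∈ P := fun a h => by rw [f1 a h]; exact (e ⟨a, h⟩).2
  have gQ : ∀ a, T.Adj z a → a ≠ u → f a ∈ Q := fun a h h' => by
    rw [f2 a ⟨h, h'⟩]; exact (e' ⟨a, ⟨h, h'⟩⟩).2
  have pP : ∀ x ∈ P, G.Adj x v := fun x hx => (mem_inn.1 (hP hx)).2
  have pQ : ∀ x ∈ Q, G.Adj v x := fun x hx => (mem_out.1 (hQ hx)).2
  have huP : u' ∉ P := fun h => hG _ _ hvu (pP _ h)
  have hwu : w' ≠ u' := fun h => by rw [h] at huw; exact hGirr _ huw
  have hvw : w' ≠ v := fun h => by rw [h] at huw; exact hG _ _ hvu huw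
  have hvu' : u' ≠ v := fun h => by rw [h] at hvu; exact hGirr _ hvu
  have hPQ : ∀ x, x ∈ P → x ∉ Q := fun x h h' => hG _ _ (pP _ h) (pQ _ h')
  have hvP : v ∉ P := fun h => hGirr _ (pP _ h)
  have hvQ : v ∉ Q := fun h => hGirr _ (pQ _ h)
  -- the type of a vertex
  have hty : ∀ a, a = z ∨ a = w ∨ a = u ∨ T.Adj a z ∨ (T.Adj z a ∧ a ≠ u) := by
    intro a
    by_cases h1 : a = z
    · exact Or.inl h1
    · by_cases h2 : a = w
      · exact Or.inr (Or.inl h2)
      · by_cases h3 : a = u
        · exact Or.inr (Or.inr (Or.inl h3))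
        · rcases hT.leaf a h1 h2 with h | h
          · exact Or.inr (Or.inr (Or.inr (Or.inl h)))
          · exact Or.inr (Or.inr (Or.inr (Or.inr ⟨h, h3⟩)))
  refine ⟨f, ?_, ?_⟩
  · intro a b hab
    rcases hty a with ha | ha | ha | ha | ha <;> rcases hty b with hb | hb | hb | hb | hb
    · rw [ha, hb]
    · rw [ha, hb, f5, f4] at hab; exact absurd hab.symm hvw
    · rw [ha, hb, f5, f3] at hab; exact absurd hab.symm hvu'
    · have := gP b hb; rw [← hab, ha, f5] at this; exact absurd this hvP
    · have := gQ b hb.1 hb.2; rw [← hab, ha, f5] at this; exact absurd this hvQ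
    · rw [ha, hb, f5, f4] at hab; exact absurd hab hvw
    · rw [ha, hb]
    · rw [ha, hb, f4, f3] at hab; exact absurd hab hwu
    · have := gP b hb; rw [← hab, ha, f4] at this; exact absurd this hwP
    · have := gQ b hb.1 hb.2; rw [← hab, ha, f4] at this; exact absurd this hwQ
    · rw [ha, hb, f5, f3] at hab; exact absurd hab hvu'
    · rw [ha, hb, f4, f3] at hab; exact absurd hab.symm hwu
    · rw [ha, hb]
    · have := gP b hb; rw [← hab, ha, f3] at this; exact absurd this huP
    · have := gQ b hb.1 hb.2; rw [← hab, ha, f3] at this; exact absurd this huQ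
    · have := gP a ha; rw [hab, hb, f5] at this; exact absurd this hvP
    · have := gP a ha; rw [hab, hb, f4] at this; exact absurd this hwP
    · have := gP a ha; rw [hab, hb, f3] at this; exact absurd this huP
    · rw [f1 a ha, f1 b hb] at hab
      exact congrArg Subtype.val (e.injective (Subtype.ext hab))
    · have h1 := gP a ha; have h2 := gQ b hb.1 hb.2; rw [hab] at h1; exact absurd h2 (hPQ _ h1)
    · have := gQ a ha.1 ha.2; rw [hab, hb, f5] at this; exact absurd this hvQ
    · have := gQ a ha.1 ha.2; rw [hab, hb, f4] at this; exact absurd this hwQ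
    · have := gQ a ha.1 ha.2; rw [hab, hb, f3] at this; exact absurd this huQ
    · have h1 := gQ a ha.1 ha.2; have h2 := gP b hb; rw [hab] at h1; exact absurd h1 (hPQ _ h2)
    · rw [f2 a ha, f2 b hb] at hab
      exact congrArg Subtype.val (e'.injective (Subtype.ext hab))
  · intro a b hab
    rcases hT.arcs a b hab with h | h | ⟨h, h'⟩
    · subst h
      rw [f5]
      by_cases hbu : b = u
      · rw [hbu, f3]
        exact hvu
      · exact pQ _ (gQ b hab hbu)
    · subst h
      rw [f5]
      exact pP _ (gP a hab)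
    · rw [h, h', f3, f4]
      exact huw

/-- the extremal tournament does not contain the tree -/
theorem free3 {k n : ℕ} (T : Digraph (Fin k)) (z u w : Fin k) (hT : IsLeg T z u w) (p q : ℕ)
    (hp : (univ.filter (fun a => T.Adj a z)).card = p)
    (hq : (univ.filter (fun a => T.Adj z a)).card = q) (hn : n ≤ bd p q)
    (f : Fin k → Fin n) (hf : Function.Injective f)
    (h : ∀ a b, T.Adj a b → arc p q (f a) (f b)) : False := by
  by_cases hn' : n ≤ 2 * p - 1 + (2 * q - 1)
  · exact free T z p q hp hq hn' f hf h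
  · have hq1 : q = 1 := by
      by_contra hq1
      unfold bd at hn
      rw [if_neg hq1] at hn
      omega
    subst hq1
    by_cases hM : (f z : ℕ) < 2 * p - 1 + (2 * 1 - 1) - 1
    · have h1 : (univ.filter (fun a => T.Adj a z)).card ≤ (Finset.range (p - 1)).card := by
        refine Finset.card_le_card_of_injOn
          (fun a => if (f a : ℕ) < f z then (f z : ℕ) - f a - 1 else
            (f z : ℕ) + (2 * p - 1) - f a - 1) ?_ ?_
        · intro a ha
          rw [Finset.mem_coe, Finset.mem_filter] at ha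
          have h2 := h a z ha.2
          rw [Finset.mem_coe, Finset.mem_range]
          unfold arc rot at h2
          simp only
          split_ifs <;> omega
        · intro a ha b hb hab
          rw [Finset.mem_coe, Finset.mem_filter] at ha hb
          have h2 := h a z ha.2
          have h3 := h b z hb.2
          unfold arc rot at h2 h3
          simp only at hab
          apply hf
          apply Fin.ext
          split_ifs at hab <;> omega
      rw [hp, Finset.card_range] at h1
      omega
    · have h1 := h z u hT.zu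
      have h2 := h u w hT.uw
      have h3 := (f z).2
      have h4 := (f u).2
      have h5 := (f w).2
      unfold bd at hn
      rw [if_pos rfl] at hn
      unfold arc rot at h1 h2
      omega

/-- the thresholds of a star with a directed leg of length two -/
theorem main2 {k : ℕ} (T : Digraph (Fin k)) (z u w : Fin k) (hT : IsLeg T z u w) (p q : ℕ)
    (hp : (univ.filter (fun a => T.Adj a z)).card = p)
    (hq : (univ.filter (fun a => T.Adj z a)).card = q) :
    sInf {n : ℕ | ∀ G : Digraph (Fin n), (∀ a b, G.Adj a b → ¬ G.Adj b a) →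
          (∀ a b, a ≠ b → G.Adj a b ∨ G.Adj b a) →
          ∃ f : Fin k → Fin n, Function.Injective f ∧ ∀ a b, T.Adj a b → G.Adj (f a) (f b)} =
        bd p q + 1 ∧
      sInf {n : ℕ | ∀ (m : ℕ) (G : Digraph (Fin m)), (∀ a b, G.Adj a b → ¬ G.Adj b a) →
          (n : ℕ∞) ≤ (SimpleGraph.fromRel G.Adj).chromaticNumber →
          ∃ f : Fin k → Fin m, Function.Injective f ∧ ∀ a b, T.Adj a b → G.Adj (f a) (f b)} =
        bd p q + 1 := by
  have hq1 : 1 ≤ q := by
    rw [← hq]
    exact Finset.card_pos.2 ⟨u, Finset.mem_filter.2 ⟨Finset.mem_univ _, hT.zu⟩⟩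
  set St := {n : ℕ | ∀ G : Digraph (Fin n), (∀ a b, G.Adj a b → ¬ G.Adj b a) →
          (∀ a b, a ≠ b → G.Adj a b ∨ G.Adj b a) →
          ∃ f : Fin k → Fin n, Function.Injective f ∧ ∀ a b, T.Adj a b → G.Adj (f a) (f b)} with hSt
  set Sc := {n : ℕ | ∀ (m : ℕ) (G : Digraph (Fin m)), (∀ a b, G.Adj a b → ¬ G.Adj b a) →
          (n : ℕ∞) ≤ (SimpleGraph.fromRel G.Adj).chromaticNumber →
          ∃ f : Fin k → Fin m, Function.Injective f ∧ ∀ a b, T.Adj a b → G.Adj (f a) (f b)} with hSc
  have h1 : bd p q + 1 ∈ Sc := by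
    intro m G hG hchi
    by_contra hcon
    have h2 : ¬ Has G.Adj univ p q := by
      intro h
      rw [← hp, ← hq] at h
      exact hcon (embed2 T z u w hT G hG h)
    obtain ⟨f, f1, f2⟩ := col_leg G.Adj hG p q hq1 _ univ rfl h2
    have hcol : (SimpleGraph.fromRel G.Adj).Colorable (bd p q) := by
      refine ⟨SimpleGraph.Coloring.mk
        (fun v => (⟨f v, f1 v (Finset.mem_univ _)⟩ : Fin (bd p q))) ?_⟩
      intro a b hab heq
      rw [SimpleGraph.fromRel_adj] at hab
      exact f2 a (Finset.mem_univ _) b (Finset.mem_univ _) hab.1 hab.2 (congrArg Fin.val heq)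
    have h3 := hchi.trans hcol.chromaticNumber_le
    rw [Nat.cast_le] at h3
    omega
  have h2 : Sc ⊆ St := by
    intro n hn G hG hG'
    refine hn n G hG ?_
    have h3 : SimpleGraph.fromRel G.Adj = ⊤ := by
      ext a b
      rw [SimpleGraph.fromRel_adj, SimpleGraph.top_adj]
      exact ⟨fun h => h.1, fun h => ⟨h, hG' a b h⟩⟩
    rw [h3, SimpleGraph.chromaticNumber_top, Fintype.card_fin]
  have h3 : ∀ n ∈ St, bd p q + 1 ≤ n := by
    intro n hn
    by_contra hlt
    obtain ⟨f, f1, f2⟩ := hn ⟨fun i j => arc p q i j⟩ (fun a b h => arc_asymm p q a b h)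
      (fun a b h => arc_total p q a b (fun h' => h (Fin.ext h')))
    exact free3 T z u w hT p q hp hq (by omega) f f1 f2
  have h4 : sInf Sc ∈ Sc := Nat.sInf_mem ⟨_, h1⟩
  have h5 : sInf St ∈ St := Nat.sInf_mem ⟨_, h2 h1⟩
  have h6 : sInf St ≤ sInf Sc := Nat.sInf_le (h2 h4)
  have h7 : sInf Sc ≤ bd p q + 1 := Nat.sInf_le h1
  have h8 := h3 _ h5
  omega

end Pool.Agent.NH50.ST
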