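import Pool.Agent.NH50.ST.Star

/-!
# The thresholds of oriented stars
-/

set_option autoImplicit false

namespace Pool.Agent.NH50.ST

open Finset
open scoped Classical

/-- rotational tournament -/
def rot (r i j : ℕ) : Prop := (i < j ∧ j - i ≤ r) ∨ (j < i ∧ r < i - j)

/-- the extremal tournament: a rotational tournament with in-degrees `p - 1` dominates a rotational
tournament with out-degrees `q - 1` -/
def arc (p q i j : ℕ) : Prop :=
  (i < 2 * p - 1 ∧ 2 * p - 1 ≤ j) ∨ (i < 2 * p - 1 ∧ j < 2 * p - 1 ∧ rot (p - 1) i j) ∨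
    (2 * p - 1 ≤ i ∧ 2 * p - 1 ≤ j ∧ rot (q - 1) i j)

theorem arc_asymm (p q i j : ℕ) (h : arc p q i j) : ¬ arc p q j i := by
  unfold arc rot at *
  omega

theorem arc_total (p q i j : ℕ) (h : i ≠ j) : arc p q i j ∨ arc p q j i := by
  unfold arc rot at *
  omega

/-- the extremal tournament does not contain the star -/
theorem free {k n : ℕ} (T : Digraph (Fin k)) (z : Fin k) (p q : ℕ)
    (hp : (univ.filter (fun a => T.Adj a z)).card = p)
    (hq : (univ.filter (fun a => T.Adj z a)).card = q) (hn : n ≤ 2 * p - 1 + (2 * q - 1))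
    (f : Fin k → Fin n) (hf : Function.Injective f)
    (h : ∀ a b, T.Adj a b → arc p q (f a) (f b)) : False := by
  have hv := (f z).2
  by_cases hM : (f z : ℕ) < 2 * p - 1
  · have h1 : (univ.filter (fun a => T.Adj a z)).card ≤ (Finset.range (p - 1)).card := by
      refine Finset.card_le_card_of_injOn
        (fun a => if (f a : ℕ) < f z then (f z : ℕ) - f a - 1 else (f z : ℕ) + (2 * p - 1) - f a - 1)
        ?_ ?_
      · intro a ha
        rw [Finset.mem_coe, Finset.mem_filter] at ha
        have h2 := h a z ha.2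
        rw [Finset.mem_coe, Finset.mem_range]
        unfold arc rot at h2
        simp only
        split_ifs <;> omega
      · intro a ha b hb hab
        rw [Finset.mem_coe, Finset.mem_filter] at ha hb
        have h2 := h a z ha.2
        have h3 := h b z hb.2
        unfold arc rot at h2 h3
        simp only at hab
        apply hf
        apply Fin.ext
        split_ifs at hab <;> omega
    rw [hp, Finset.card_range] at h1
    omega
  · have h1 : (univ.filter (fun a => T.Adj z a)).card ≤ (Finset.range (q - 1)).card := by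
      refine Finset.card_le_card_of_injOn
        (fun a => if (f z : ℕ) < f a then (f a : ℕ) - f z - 1 else (f a : ℕ) + (2 * q - 1) - f z - 1)
        ?_ ?_
      · intro a ha
        rw [Finset.mem_coe, Finset.mem_filter] at ha
        have h2 := h z a ha.2
        have h4 := (f a).2
        rw [Finset.mem_coe, Finset.mem_range]
        unfold arc rot at h2
        simp only
        split_ifs <;> omega
      · intro a ha b hb hab
        rw [Finset.mem_coe, Finset.mem_filter] at ha hb
        have h2 := h z a ha.2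
        have h3 := h z b hb.2
        have h4 := (f a).2
        have h5 := (f b).2
        unfold arc rot at h2 h3
        simp only at hab
        apply hf
        apply Fin.ext
        split_ifs at hab <;> omega
    rw [hq, Finset.card_range] at h1
    omega

/-- the thresholds of an oriented star -/
theorem main {k : ℕ} (T : Digraph (Fin k)) (z : Fin k) (hT : ∀ a b, T.Adj a b → ¬ T.Adj b a)
    (hz : ∀ a b, T.Adj a b → a = z ∨ b = z) (hc : ∀ a, a ≠ z → T.Adj a z ∨ T.Adj z a) (p q : ℕ)
    (hp : (univ.filter (fun a => T.Adj a z)).card = p)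
    (hq : (univ.filter (fun a => T.Adj z a)).card = q) :
    sInf {n : ℕ | ∀ G : Digraph (Fin n), (∀ a b, G.Adj a b → ¬ G.Adj b a) →
          (∀ a b, a ≠ b → G.Adj a b ∨ G.Adj b a) →
          ∃ f : Fin k → Fin n, Function.Injective f ∧ ∀ a b, T.Adj a b → G.Adj (f a) (f b)} =
        2 * p - 1 + (2 * q - 1) + 1 ∧
      sInf {n : ℕ | ∀ (m : ℕ) (G : Digraph (Fin m)), (∀ a b, G.Adj a b → ¬ G.Adj b a) →
          (n : ℕ∞) ≤ (SimpleGraph.fromRel G.Adj).chromaticNumber →
          ∃ f : Fin k → Fin m, Function.Injective f ∧ ∀ a b, T.Adj a b → G.Adj (f a) (f b)} =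
        2 * p - 1 + (2 * q - 1) + 1 := by
  set St := {n : ℕ | ∀ G : Digraph (Fin n), (∀ a b, G.Adj a b → ¬ G.Adj b a) →
          (∀ a b, a ≠ b → G.Adj a b ∨ G.Adj b a) →
          ∃ f : Fin k → Fin n, Function.Injective f ∧ ∀ a b, T.Adj a b → G.Adj (f a) (f b)} with hSt
  set Sc := {n : ℕ | ∀ (m : ℕ) (G : Digraph (Fin m)), (∀ a b, G.Adj a b → ¬ G.Adj b a) →
          (n : ℕ∞) ≤ (SimpleGraph.fromRel G.Adj).chromaticNumber →
          ∃ f : Fin k → Fin m, Function.Injective f ∧ ∀ a b, T.Adj a b → G.Adj (f a) (f b)} with hSc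
  have h1 : 2 * p - 1 + (2 * q - 1) + 1 ∈ Sc := by
    intro m G hG hchi
    by_contra hcon
    have h2 : ∀ v, (univ.filter (fun u => G.Adj u v)).card < p ∨
        (univ.filter (fun u => G.Adj v u)).card < q := by
      intro v
      by_contra h3
      rw [not_or, not_lt, not_lt] at h3
      exact hcon (embed T z hT hz G hG hc v (hp ▸ h3.1) (hq ▸ h3.2))
    have h3 := hchi.trans (chi_le G p q h2)
    rw [Nat.cast_le] at h3
    omega
  have h2 : Sc ⊆ St := by
    intro n hn G hG hG'
    refine hn n G hG ?_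
    have h3 : SimpleGraph.fromRel G.Adj = ⊤ := by
      ext a b
      rw [SimpleGraph.fromRel_adj, SimpleGraph.top_adj]
      exact ⟨fun h => h.1, fun h => ⟨h, hG' a b h⟩⟩
    rw [h3, SimpleGraph.chromaticNumber_top, Fintype.card_fin]
  have h3 : ∀ n ∈ St, 2 * p - 1 + (2 * q - 1) + 1 ≤ n := by
    intro n hn
    by_contra hlt
    obtain ⟨f, f1, f2⟩ := hn ⟨fun i j => arc p q i j⟩ (fun a b h => arc_asymm p q a b h)
      (fun a b h => arc_total p q a b (fun h' => h (Fin.ext h')))
    exact free T z p q hp hq (by omega) f f1 f2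
  have h4 : sInf Sc ∈ Sc := Nat.sInf_mem ⟨_, h1⟩
  have h5 : sInf St ∈ St := Nat.sInf_mem ⟨_, h2 h1⟩
  have h6 : sInf St ≤ sInf Sc := Nat.sInf_le (h2 h4)
  have h7 : sInf Sc ≤ 2 * p - 1 + (2 * q - 1) + 1 := Nat.sInf_le h1
  have h8 := h3 _ h5
  omega

end Pool.Agent.NH50.ST
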