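import Pool.Agent.NH50.ST.Main
import Pool.Agent.NH50.ST.Col

/-!
# Oriented trees with a vertex adjacent to almost all leaves
-/

set_option autoImplicit false

namespace Pool.Agent.NH50.ST

open Finset
open scoped Classical

theorem exists_leaf {V : Type} [Finite V] [Nonempty V] (H : SimpleGraph V) (h : H.IsAcyclic) :
    ∃ v, ∀ a b, H.Adj v a → H.Adj v b → a = b := by
  obtain ⟨u, v, p, hp, hmax⟩ := SimpleGraph.Walk.exists_isPath_forall_isPath_length_le_length H
  refine ⟨u, fun a b ha hb => ?_⟩
  have key : ∀ w, H.Adj u w → w = p.snd := by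
    intro w hw
    apply h.eq_snd_of_adj_start hp hw
    by_contra hns
    have h1 := hmax _ _ (SimpleGraph.Walk.cons hw.symm p)
      ((SimpleGraph.Walk.cons_isPath_iff _ _).2 ⟨hp, hns⟩)
    rw [SimpleGraph.Walk.length_cons] at h1
    omega
  rw [key a ha, key b hb]

theorem exists_leaf_in {k : ℕ} (H : SimpleGraph (Fin k)) (h : H.IsAcyclic) (S : Finset (Fin k))
    (hS : S.Nonempty) : ∃ v ∈ S, ∀ a ∈ S, ∀ b ∈ S, H.Adj v a → H.Adj v b → a = b := by
  obtain ⟨x, hx⟩ := hS
  have : Nonempty (S : Set (Fin k)) := ⟨⟨x, hx⟩⟩
  obtain ⟨v, hv⟩ := exists_leaf (H.induce (S : Set (Fin k))) (h.induce _)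
  refine ⟨v, v.2, fun a ha b hb h1 h2 => ?_⟩
  exact congrArg Subtype.val (hv ⟨a, ha⟩ ⟨b, hb⟩ h1 h2)

/-- the part of `T` on the vertex set `S` is contained in the part of `R` on `W` -/
def Emb {V : Type} {k : ℕ} (T : Digraph (Fin k)) (S : Finset (Fin k)) (R : V → V → Prop)
    (W : Finset V) : Prop :=
  ∃ f : Fin k → V, (∀ a ∈ S, ∀ b ∈ S, f a = f b → a = b) ∧ (∀ a ∈ S, f a ∈ W) ∧
    ∀ a ∈ S, ∀ b ∈ S, T.Adj a b → R (f a) (f b)

theorem adj_of {k : ℕ} {T : Digraph (Fin k)} (hT : ∀ a b, T.Adj a b → ¬ T.Adj b a) {a b : Fin k}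
    (h : T.Adj a b ∨ T.Adj b a) : (SimpleGraph.fromRel T.Adj).Adj a b := by
  rw [SimpleGraph.fromRel_adj]
  refine ⟨?_, h⟩
  rintro rfl
  rcases h with h | h <;> exact hT _ _ h h

theorem emb_extend {V : Type} {k : ℕ} {T : Digraph (Fin k)} {R : V → V → Prop}
    {S : Finset (Fin k)} {W : Finset V} {v : Fin k} (hv : v ∈ S) (f : Fin k → V) (y : V)
    (f1 : ∀ a ∈ S.erase v, ∀ b ∈ S.erase v, f a = f b → a = b) (f2 : ∀ a ∈ S.erase v, f a ∈ W)
    (f3 : ∀ a ∈ S.erase v, ∀ b ∈ S.erase v, T.Adj a b → R (f a) (f b))
    (hT : ∀ a b, T.Adj a b → ¬ T.Adj b a) (hy : y ∈ W) (hy' : ∀ a ∈ S.erase v, f a ≠ y)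
    (h1 : ∀ a ∈ S.erase v, T.Adj a v → R (f a) y) (h2 : ∀ a ∈ S.erase v, T.Adj v a → R y (f a)) :
    Emb T S R W := by
  have hne : ∀ a ∈ S, a ≠ v → a ∈ S.erase v := fun a ha h => Finset.mem_erase.2 ⟨h, ha⟩
  refine ⟨Function.update f v y, ?_, ?_, ?_⟩
  · intro a ha b hb hab
    by_cases h : a = v <;> by_cases h' : b = v
    · rw [h, h']
    · rw [h, Function.update_self, Function.update_of_ne h'] at hab
      exact absurd hab.symm (hy' b (hne b hb h'))
    · rw [h', Function.update_self, Function.update_of_ne h] at hab
      exact absurd hab (hy' a (hne a ha h))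
    · rw [Function.update_of_ne h, Function.update_of_ne h'] at hab
      exact f1 a (hne a ha h) b (hne b hb h') hab
  · intro a ha
    by_cases h : a = v
    · rw [h, Function.update_self]; exact hy
    · rw [Function.update_of_ne h]; exact f2 a (hne a ha h)
  · intro a ha b hb hab
    by_cases h : a = v <;> by_cases h' : b = v
    · rw [h, h'] at hab; exact absurd hab (hT _ _ hab)
    · rw [h, Function.update_self, Function.update_of_ne h']
      rw [h] at hab
      exact h2 b (hne b hb h') hab
    · rw [h', Function.update_self, Function.update_of_ne h]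
      rw [h'] at hab
      exact h1 a (hne a ha h) hab
    · rw [Function.update_of_ne h, Function.update_of_ne h']
      exact f3 a (hne a ha h) b (hne b hb h') hab

theorem pcol_swap {V : Type} {R : V → V → Prop} {W : Finset V} {n : ℕ}
    (h : PCol (fun a b => R b a) W n) : PCol R W n := by
  obtain ⟨f, f1, f2⟩ := h
  exact ⟨f, f1, fun a ha b hb hab hR => f2 a ha b hb hab hR.symm⟩

theorem pcol_cover {V : Type} {R : V → V → Prop} {W A B C : Finset V} {n m l : ℕ}
    (hA : PCol R A n) (hB : PCol R B m) (hC : PCol R C l)
    (h : ∀ v ∈ W, v ∈ A ∨ v ∈ B ∨ v ∈ C) : PCol R W (n + m + l) := by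
  refine pcol_mono (pcol_union (pcol_union hA hB) hC) ?_ le_rfl
  intro v hv
  rw [Finset.mem_union, Finset.mem_union]
  rcases h v hv with h | h | h
  · exact Or.inl (Or.inl h)
  · exact Or.inl (Or.inr h)
  · exact Or.inr h

/-- Burr's theorem: a digraph without a given oriented forest with `n + 1` vertices has chromatic
number at most `n ^ 2` -/
theorem burr {V : Type} (R : V → V → Prop) (hR : ∀ a b, R a b → ¬ R b a) {k : ℕ}
    (T : Digraph (Fin k)) (hT : ∀ a b, T.Adj a b → ¬ T.Adj b a)
    (hac : (SimpleGraph.fromRel T.Adj).IsAcyclic) : ∀ (n : ℕ) (S : Finset (Fin k)) (W : Finset V),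
    S.card = n + 1 → ¬ Emb T S R W → PCol R W (n ^ 2) := by
  intro n
  induction n with
  | zero =>
    intro S W hS hE
    rw [zero_add, Finset.card_eq_one] at hS
    obtain ⟨a, rfl⟩ := hS
    rcases W.eq_empty_or_nonempty with rfl | ⟨w, hw⟩
    · exact pcol_empty R
    · exfalso
      refine hE ⟨fun _ => w, ?_, fun _ _ => hw, ?_⟩
      · intro x hx y hy _
        rw [Finset.mem_singleton] at hx hy
        rw [hx, hy]
      · intro x hx y hy h
        rw [Finset.mem_singleton] at hx hy
        rw [hx, hy] at h
        exact absurd h (hT _ _ h)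
  | succ n ih =>
    intro S W hS hE
    obtain ⟨v, hv, hleaf⟩ := exists_leaf_in _ hac S (by rw [← Finset.card_pos, hS]; omega)
    have hS' : (S.erase v).card = n + 1 := by rw [Finset.card_erase_of_mem hv, hS]; omega
    have hfresh : ∀ (f : Fin k → V) (u : Fin k), u ∈ S.erase v →
        ∀ X : Finset V, n + 1 ≤ X.card → f u ∉ X → ∃ y ∈ X, ∀ a ∈ S.erase v, f a ≠ y := by
      intro f u hu X hX hfu
      by_contra hcon
      push Not at hcon
      have hsub : X ⊆ ((S.erase v).image f).erase (f u) := by
        intro y hy
        obtain ⟨a, ha, hay⟩ := hcon y hy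
        rw [Finset.mem_erase, Finset.mem_image]
        refine ⟨?_, a, ha, hay⟩
        rintro rfl
        exact hfu hy
      have h1 := Finset.card_le_card hsub
      rw [Finset.card_erase_of_mem (Finset.mem_image_of_mem f hu)] at h1
      have h2 := Finset.card_image_le (s := S.erase v) (f := f)
      omega
    by_cases hA : ∃ u ∈ S.erase v, T.Adj u v
    · obtain ⟨u, hu, huv⟩ := hA
      set A := W.filter (fun w => (W.filter (fun x => R w x)).card < n + 1) with hAdef
      have hnE : ¬ Emb T (S.erase v) R (W \ A) := by
        rintro ⟨f, f1, f2, f3⟩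
        have hfu := f2 u hu
        rw [Finset.mem_sdiff, hAdef, Finset.mem_filter, not_and, not_lt] at hfu
        obtain ⟨y, hy, hy'⟩ := hfresh f u hu (W.filter (fun x => R (f u) x)) (hfu.2 hfu.1)
          (fun h => by
            rw [Finset.mem_filter] at h
            exact hR _ _ h.2 h.2)
        rw [Finset.mem_filter] at hy
        refine hE (emb_extend hv f y f1 (fun a ha => (Finset.mem_sdiff.1 (f2 a ha)).1) f3 hT hy.1
          hy' ?_ ?_)
        · intro a ha hav
          have : a = u := hleaf a (Finset.mem_of_mem_erase ha) u (Finset.mem_of_mem_erase hu)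
            (adj_of hT (Or.inr hav)) (adj_of hT (Or.inr huv))
          rw [this]; exact hy.2
        · intro a ha hva
          have : a = u := hleaf a (Finset.mem_of_mem_erase ha) u (Finset.mem_of_mem_erase hu)
            (adj_of hT (Or.inl hva)) (adj_of hT (Or.inr huv))
          rw [this] at hva
          exact absurd hva (hT _ _ huv)
      have h1 := ih _ _ hS' hnE
      have h2 := pcol_out R (n + 1) _ A rfl (fun w hw => by
        rw [hAdef, Finset.mem_filter] at hw
        exact lt_of_le_of_lt (Finset.card_le_card (Finset.filter_subset_filter _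
          (Finset.filter_subset _ _))) hw.2)
      refine pcol_mono (pcol_union h1 h2) ?_ ?_
      · intro w hw
        rw [Finset.mem_union, Finset.mem_sdiff]
        by_cases h : w ∈ A
        · exact Or.inr h
        · exact Or.inl ⟨hw, h⟩
      · have : (n + 1) ^ 2 = n ^ 2 + 2 * n + 1 := by ring
        omega
    · by_cases hB : ∃ u ∈ S.erase v, T.Adj v u
      · obtain ⟨u, hu, huv⟩ := hB
        set A := W.filter (fun w => (W.filter (fun x => R x w)).card < n + 1) with hAdef
        have hnE : ¬ Emb T (S.erase v) R (W \ A) := by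
          rintro ⟨f, f1, f2, f3⟩
          have hfu := f2 u hu
          rw [Finset.mem_sdiff, hAdef, Finset.mem_filter, not_and, not_lt] at hfu
          obtain ⟨y, hy, hy'⟩ := hfresh f u hu (W.filter (fun x => R x (f u))) (hfu.2 hfu.1)
            (fun h => by
              rw [Finset.mem_filter] at h
              exact hR _ _ h.2 h.2)
          rw [Finset.mem_filter] at hy
          refine hE (emb_extend hv f y f1 (fun a ha => (Finset.mem_sdiff.1 (f2 a ha)).1) f3 hT hy.1
            hy' ?_ ?_)
          · intro a ha hav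
            exact absurd ⟨a, ha, hav⟩ hA
          · intro a ha hva
            have : a = u := hleaf a (Finset.mem_of_mem_erase ha) u (Finset.mem_of_mem_erase hu)
              (adj_of hT (Or.inl hva)) (adj_of hT (Or.inl huv))
            rw [this]; exact hy.2
        have h1 := ih _ _ hS' hnE
        have h2 := pcol_swap (pcol_out (fun a b => R b a) (n + 1) _ A rfl (fun w hw => by
          rw [hAdef, Finset.mem_filter] at hw
          exact lt_of_le_of_lt (Finset.card_le_card (Finset.filter_subset_filter _
            (Finset.filter_subset _ _))) hw.2))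
        refine pcol_mono (pcol_union h1 h2) ?_ ?_
        · intro w hw
          rw [Finset.mem_union, Finset.mem_sdiff]
          by_cases h : w ∈ A
          · exact Or.inr h
          · exact Or.inl ⟨hw, h⟩
        · have : (n + 1) ^ 2 = n ^ 2 + 2 * n + 1 := by ring
          omega
      · have hsq : (n + 1) ^ 2 = n ^ 2 + 2 * n + 1 := by ring
        by_cases hC : Emb T (S.erase v) R W
        · obtain ⟨f, f1, f2, f3⟩ := hC
          by_cases hW : W ⊆ (S.erase v).image f
          · have hcard : W.card ≤ n + 1 := by
              have h1 := Finset.card_le_card hW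
              have h2 := Finset.card_image_le (s := S.erase v) (f := f)
              omega
            have h2 := pcol_out R (n + 1) _ W rfl (fun w hw => by
              have hsub : W.filter (fun x => R w x) ⊆ W.erase w := by
                intro x hx
                rw [Finset.mem_filter] at hx
                rw [Finset.mem_erase]
                refine ⟨?_, hx.1⟩
                rintro rfl
                exact hR _ _ hx.2 hx.2
              have h3 := Finset.card_le_card hsub
              rw [Finset.card_erase_of_mem hw] at h3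
              have h4 : 0 < W.card := Finset.card_pos.2 ⟨w, hw⟩
              omega)
            exact pcol_mono h2 (Finset.Subset.refl _) (by omega)
          · exfalso
            rw [Finset.not_subset] at hW
            obtain ⟨y, hy, hy'⟩ := hW
            refine hE (emb_extend hv f y f1 f2 f3 hT hy ?_ ?_ ?_)
            · intro a ha hay
              exact hy' (Finset.mem_image.2 ⟨a, ha, hay⟩)
            · intro a ha hav
              exact absurd ⟨a, ha, hav⟩ hA
            · intro a ha hva
              exact absurd ⟨a, ha, hva⟩ hB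
        · exact pcol_mono (ih _ _ hS' hC) (Finset.Subset.refl _) (by omega)

end Pool.Agent.NH50.ST
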