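import Pool.Agent.NH50.ST.Near

/-!
# The thresholds of a tree with many leaves at one vertex agree up to a constant
-/

set_option autoImplicit false

namespace Pool.Agent.NH50.ST

open Finset
open scoped Classical

/-- `T` consists of a part on the vertex set `S` and of leaves adjacent to `z ∈ S` -/
structure IsNear {k : ℕ} (T : Digraph (Fin k)) (z : Fin k) (S : Finset (Fin k)) : Prop where
  asymm : ∀ a b, T.Adj a b → ¬ T.Adj b a
  acyclic : (SimpleGraph.fromRel T.Adj).IsAcyclic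
  mem : z ∈ S
  arcs : ∀ a b, T.Adj a b → (a ∈ S ∧ b ∈ S) ∨ a = z ∨ b = z
  leaves : ∀ a, a ∉ S → T.Adj a z ∨ T.Adj z a

theorem extend_near {k m : ℕ} {T : Digraph (Fin k)} {z : Fin k} {S : Finset (Fin k)}
    (h : IsNear T z S) (G : Digraph (Fin m)) (hG : ∀ a b, G.Adj a b → ¬ G.Adj b a) {n p q : ℕ}
    (hS : S.card = n + 1)
    (hp : (univ.filter (fun a => a ∉ S ∧ T.Adj a z)).card = p)
    (hq : (univ.filter (fun a => a ∉ S ∧ T.Adj z a)).card = q) (f : Fin k → Fin m)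
    (f1 : ∀ a ∈ S, ∀ b ∈ S, f a = f b → a = b)
    (f3 : ∀ a ∈ S, ∀ b ∈ S, T.Adj a b → G.Adj (f a) (f b))
    (hin : p + n ≤ (univ.filter (fun u => G.Adj u (f z))).card)
    (hout : q + n ≤ (univ.filter (fun u => G.Adj (f z) u)).card) :
    ∃ F : Fin k → Fin m, Function.Injective F ∧ ∀ a b, T.Adj a b → G.Adj (F a) (F b) := by
  have hvv : ¬ G.Adj (f z) (f z) := fun h' => hG _ _ h' h'
  have hfree : ∀ X : Finset (Fin m), f z ∉ X → X.card ≤ (X \ S.image f).card + n := by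
    intro X hX
    have h1 : X ⊆ (X \ S.image f) ∪ (S.image f).erase (f z) := by
      intro y hy
      rw [Finset.mem_union, Finset.mem_sdiff, Finset.mem_erase]
      by_cases h' : y ∈ S.image f
      · right
        refine ⟨?_, h'⟩
        rintro rfl
        exact hX hy
      · left
        exact ⟨hy, h'⟩
    have h2 := (Finset.card_le_card h1).trans (Finset.card_union_le _ _)
    rw [Finset.card_erase_of_mem (Finset.mem_image_of_mem f h.mem)] at h2
    have h3 := Finset.card_image_le (s := S) (f := f)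
    omega
  have hin' := hfree (univ.filter (fun u => G.Adj u (f z))) (by simp [hvv])
  have hout' := hfree (univ.filter (fun u => G.Adj (f z) u)) (by simp [hvv])
  have e1 : Nonempty ({a // a ∉ S ∧ T.Adj a z} ↪
      {u // u ∈ (univ.filter (fun u => G.Adj u (f z))) \ S.image f}) := by
    refine Function.Embedding.nonempty_of_card_le ?_
    rw [Fintype.card_subtype, Fintype.card_coe]
    omega
  have e2 : Nonempty ({a // a ∉ S ∧ T.Adj z a} ↪
      {u // u ∈ (univ.filter (fun u => G.Adj (f z) u)) \ S.image f}) := by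
    refine Function.Embedding.nonempty_of_card_le ?_
    rw [Fintype.card_subtype, Fintype.card_coe]
    omega
  obtain ⟨e⟩ := e1
  obtain ⟨e'⟩ := e2
  have he : ∀ a (ha : a ∉ S ∧ T.Adj a z), G.Adj (e ⟨a, ha⟩ : Fin m) (f z) ∧
      ∀ b ∈ S, f b ≠ (e ⟨a, ha⟩ : Fin m) := by
    intro a ha
    have := (e ⟨a, ha⟩).2
    rw [Finset.mem_sdiff, Finset.mem_filter] at this
    exact ⟨this.1.2, fun b hb hfb => this.2 (Finset.mem_image.2 ⟨b, hb, hfb⟩)⟩
  have he' : ∀ a (ha : a ∉ S ∧ T.Adj z a), G.Adj (f z) (e' ⟨a, ha⟩ : Fin m) ∧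
      ∀ b ∈ S, f b ≠ (e' ⟨a, ha⟩ : Fin m) := by
    intro a ha
    have := (e' ⟨a, ha⟩).2
    rw [Finset.mem_sdiff, Finset.mem_filter] at this
    exact ⟨this.1.2, fun b hb hfb => this.2 (Finset.mem_image.2 ⟨b, hb, hfb⟩)⟩
  set F : Fin k → Fin m := fun a => if h1 : a ∉ S ∧ T.Adj a z then (e ⟨a, h1⟩ : Fin m) else
    if h2 : a ∉ S ∧ T.Adj z a then (e' ⟨a, h2⟩ : Fin m) else f a with hF
  have F1 : ∀ a (h1 : a ∉ S ∧ T.Adj a z), F a = e ⟨a, h1⟩ := fun a h1 => dif_pos h1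
  have F2 : ∀ a (h2 : a ∉ S ∧ T.Adj z a), F a = e' ⟨a, h2⟩ := fun a h2 => by
    have h1 : ¬ (a ∉ S ∧ T.Adj a z) := fun h1 => h.asymm _ _ h1.2 h2.2
    rw [hF]
    simp only
    rw [dif_neg h1, dif_pos h2]
  have F3 : ∀ a ∈ S, F a = f a := fun a ha => by
    rw [hF]
    simp only
    rw [dif_neg (fun h1 => h1.1 ha), dif_neg (fun h1 => h1.1 ha)]
  have cls : ∀ a, a ∈ S ∨ (a ∉ S ∧ T.Adj a z) ∨ (a ∉ S ∧ T.Adj z a) := by
    intro a
    by_cases ha : a ∈ S
    · exact Or.inl ha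
    · rcases h.leaves a ha with h' | h'
      · exact Or.inr (Or.inl ⟨ha, h'⟩)
      · exact Or.inr (Or.inr ⟨ha, h'⟩)
  refine ⟨F, ?_, ?_⟩
  · intro a b hab
    rcases cls a with ha | ha | ha <;> rcases cls b with hb | hb | hb
    · rw [F3 a ha, F3 b hb] at hab
      exact f1 a ha b hb hab
    · rw [F3 a ha, F1 b hb] at hab
      exact absurd hab ((he b hb).2 a ha)
    · rw [F3 a ha, F2 b hb] at hab
      exact absurd hab ((he' b hb).2 a ha)
    · rw [F1 a ha, F3 b hb] at hab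
      exact absurd hab.symm ((he a ha).2 b hb)
    · rw [F1 a ha, F1 b hb] at hab
      exact congrArg Subtype.val (e.injective (Subtype.ext hab))
    · exfalso
      rw [F1 a ha, F2 b hb] at hab
      have i1 := (he a ha).1
      have i2 := (he' b hb).1
      rw [hab] at i1
      exact hG _ _ i1 i2
    · rw [F2 a ha, F3 b hb] at hab
      exact absurd hab.symm ((he' a ha).2 b hb)
    · exfalso
      rw [F2 a ha, F1 b hb] at hab
      have i1 := (he' a ha).1
      have i2 := (he b hb).1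
      rw [hab] at i1
      exact hG _ _ i1 i2
    · rw [F2 a ha, F2 b hb] at hab
      exact congrArg Subtype.val (e'.injective (Subtype.ext hab))
  · intro a b hab
    by_cases hab' : a ∈ S ∧ b ∈ S
    · rw [F3 a hab'.1, F3 b hab'.2]
      exact f3 a hab'.1 b hab'.2 hab
    · rcases h.arcs a b hab with h' | h' | h'
      · exact absurd h' hab'
      · subst h'
        have hb : b ∉ S := fun hb => hab' ⟨h.mem, hb⟩
        rw [F3 a h.mem, F2 b ⟨hb, hab⟩]
        exact (he' b ⟨hb, hab⟩).1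
      · subst h'
        have ha : a ∉ S := fun ha => hab' ⟨ha, h.mem⟩
        rw [F3 b h.mem, F1 a ⟨ha, hab⟩]
        exact (he a ⟨ha, hab⟩).1

theorem chi_le_of_pcol {m : ℕ} (G : Digraph (Fin m)) {N : ℕ} (h : PCol G.Adj univ N) :
    (SimpleGraph.fromRel G.Adj).chromaticNumber ≤ (N : ℕ∞) := by
  obtain ⟨f, f1, f2⟩ := h
  have hcol : (SimpleGraph.fromRel G.Adj).Colorable N := by
    refine ⟨SimpleGraph.Coloring.mk (fun v => (⟨f v, f1 v (mem_univ _)⟩ : Fin N)) ?_⟩
    intro a b hab heq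
    rw [SimpleGraph.fromRel_adj] at hab
    exact f2 a (mem_univ _) b (mem_univ _) hab.1 hab.2 (congrArg Fin.val heq)
  exact hcol.chromaticNumber_le

/-- upper bound for the chromatic threshold -/
theorem near_upper {k m : ℕ} {T : Digraph (Fin k)} {z : Fin k} {S : Finset (Fin k)}
    (h : IsNear T z S) (G : Digraph (Fin m)) (hG : ∀ a b, G.Adj a b → ¬ G.Adj b a) {n p q : ℕ}
    (hS : S.card = n + 1)
    (hp : (univ.filter (fun a => a ∉ S ∧ T.Adj a z)).card = p)
    (hq : (univ.filter (fun a => a ∉ S ∧ T.Adj z a)).card = q)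
    (hno : ¬ ∃ F : Fin k → Fin m, Function.Injective F ∧ ∀ a b, T.Adj a b → G.Adj (F a) (F b)) :
    (SimpleGraph.fromRel G.Adj).chromaticNumber ≤
      ((2 * (q + n) - 1 + (2 * (p + n) - 1) + n ^ 2 : ℕ) : ℕ∞) := by
  apply chi_le_of_pcol
  set A := univ.filter (fun v => (univ.filter (fun u => G.Adj v u)).card < q + n) with hA
  set B := univ.filter (fun v => (univ.filter (fun u => G.Adj u v)).card < p + n) with hB
  have cA : PCol G.Adj A (2 * (q + n) - 1) := pcol_out G.Adj (q + n) _ A rfl (fun v hv => by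
    rw [hA, Finset.mem_filter] at hv
    exact lt_of_le_of_lt (Finset.card_le_card (Finset.filter_subset_filter _
      (Finset.subset_univ _))) hv.2)
  have cB : PCol G.Adj B (2 * (p + n) - 1) := pcol_swap (pcol_out (fun a b => G.Adj b a) (p + n) _ B
    rfl (fun v hv => by
      rw [hB, Finset.mem_filter] at hv
      exact lt_of_le_of_lt (Finset.card_le_card (Finset.filter_subset_filter _
        (Finset.subset_univ _))) hv.2))
  have cR : PCol G.Adj (univ.filter (fun v => v ∉ A ∧ v ∉ B)) (n ^ 2) := by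
    refine burr G.Adj hG T h.asymm h.acyclic n S _ hS ?_
    rintro ⟨f, f1, f2, f3⟩
    have hz := f2 z h.mem
    rw [Finset.mem_filter, hA, hB, Finset.mem_filter, Finset.mem_filter,
      not_and, not_and, not_lt, not_lt] at hz
    exact hno (extend_near h G hG hS hp hq f f1 f3 (hz.2.2 (mem_univ _)) (hz.2.1 (mem_univ _)))
  refine pcol_cover cA cB cR (fun v _ => ?_)
  by_cases hvA : v ∈ A
  · exact Or.inl hvA
  · by_cases hvB : v ∈ B
    · exact Or.inr (Or.inl hvB)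
    · exact Or.inr (Or.inr (Finset.mem_filter.2 ⟨mem_univ _, hvA, hvB⟩))

/-- the thresholds agree up to `n ^ 2 + 4 n` -/
theorem near_main {k : ℕ} {T : Digraph (Fin k)} {z : Fin k} {S : Finset (Fin k)}
    (h : IsNear T z S) {n : ℕ} (hS : S.card = n + 1) :
    sInf {n : ℕ | ∀ G : Digraph (Fin n), (∀ a b, G.Adj a b → ¬ G.Adj b a) →
          (∀ a b, a ≠ b → G.Adj a b ∨ G.Adj b a) →
          ∃ f : Fin k → Fin n, Function.Injective f ∧ ∀ a b, T.Adj a b → G.Adj (f a) (f b)} ≤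
      sInf {n : ℕ | ∀ (m : ℕ) (G : Digraph (Fin m)), (∀ a b, G.Adj a b → ¬ G.Adj b a) →
          (n : ℕ∞) ≤ (SimpleGraph.fromRel G.Adj).chromaticNumber →
          ∃ f : Fin k → Fin m, Function.Injective f ∧ ∀ a b, T.Adj a b → G.Adj (f a) (f b)} ∧
      sInf {n : ℕ | ∀ (m : ℕ) (G : Digraph (Fin m)), (∀ a b, G.Adj a b → ¬ G.Adj b a) →
          (n : ℕ∞) ≤ (SimpleGraph.fromRel G.Adj).chromaticNumber →
          ∃ f : Fin k → Fin m, Function.Injective f ∧ ∀ a b, T.Adj a b → G.Adj (f a) (f b)} ≤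
      sInf {n : ℕ | ∀ G : Digraph (Fin n), (∀ a b, G.Adj a b → ¬ G.Adj b a) →
          (∀ a b, a ≠ b → G.Adj a b ∨ G.Adj b a) →
          ∃ f : Fin k → Fin n, Function.Injective f ∧ ∀ a b, T.Adj a b → G.Adj (f a) (f b)} +
        n ^ 2 + 4 * n := by
  set St := {n : ℕ | ∀ G : Digraph (Fin n), (∀ a b, G.Adj a b → ¬ G.Adj b a) →
          (∀ a b, a ≠ b → G.Adj a b ∨ G.Adj b a) →
          ∃ f : Fin k → Fin n, Function.Injective f ∧ ∀ a b, T.Adj a b → G.Adj (f a) (f b)} with hSt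
  set Sc := {n : ℕ | ∀ (m : ℕ) (G : Digraph (Fin m)), (∀ a b, G.Adj a b → ¬ G.Adj b a) →
          (n : ℕ∞) ≤ (SimpleGraph.fromRel G.Adj).chromaticNumber →
          ∃ f : Fin k → Fin m, Function.Injective f ∧ ∀ a b, T.Adj a b → G.Adj (f a) (f b)} with hSc
  obtain ⟨p', hp'⟩ : ∃ p', (univ.filter (fun a => a ∉ S ∧ T.Adj a z)).card = p' := ⟨_, rfl⟩
  obtain ⟨q', hq'⟩ : ∃ q', (univ.filter (fun a => a ∉ S ∧ T.Adj z a)).card = q' := ⟨_, rfl⟩
  obtain ⟨p, hp⟩ : ∃ p, (univ.filter (fun a => T.Adj a z)).card = p := ⟨_, rfl⟩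
  obtain ⟨q, hq⟩ : ∃ q, (univ.filter (fun a => T.Adj z a)).card = q := ⟨_, rfl⟩
  have hpp : p' ≤ p := by
    rw [← hp, ← hp']
    refine Finset.card_le_card (fun a ha => ?_)
    rw [Finset.mem_filter] at ha ⊢
    exact ⟨ha.1, ha.2.2⟩
  have hqq : q' ≤ q := by
    rw [← hq, ← hq']
    refine Finset.card_le_card (fun a ha => ?_)
    rw [Finset.mem_filter] at ha ⊢
    exact ⟨ha.1, ha.2.2⟩
  have h1 : 2 * (q' + n) - 1 + (2 * (p' + n) - 1) + n ^ 2 + 1 ∈ Sc := by
    intro m G hG hchi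
    by_contra hcon
    have h3 := hchi.trans (near_upper h G hG hS hp' hq' hcon)
    rw [Nat.cast_le] at h3
    omega
  have h2 : Sc ⊆ St := by
    intro n hn G hG hG'
    refine hn n G hG ?_
    have h3 : SimpleGraph.fromRel G.Adj = ⊤ := by
      ext a b
      rw [SimpleGraph.fromRel_adj, SimpleGraph.top_adj]
      exact ⟨fun h => h.1, fun h => ⟨h, hG' a b h⟩⟩
    rw [h3, SimpleGraph.chromaticNumber_top, Fintype.card_fin]
  have h3 : ∀ n ∈ St, 2 * p - 1 + (2 * q - 1) + 1 ≤ n := by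
    intro n hn
    by_contra hlt
    obtain ⟨f, f1, f2⟩ := hn ⟨fun i j => arc p q i j⟩ (fun a b h => arc_asymm p q a b h)
      (fun a b h => arc_total p q a b (fun h' => h (Fin.ext h')))
    exact free T z p q hp hq (by omega) f f1 f2
  have h4 : sInf Sc ∈ Sc := Nat.sInf_mem ⟨_, h1⟩
  have h5 : sInf St ∈ St := Nat.sInf_mem ⟨_, h2 h1⟩
  have h6 : sInf St ≤ sInf Sc := Nat.sInf_le (h2 h4)
  have h7 : sInf Sc ≤ 2 * (q' + n) - 1 + (2 * (p' + n) - 1) + n ^ 2 + 1 := Nat.sInf_le h1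
  have h8 := h3 _ h5
  exact ⟨h6, by omega⟩

end Pool.Agent.NH50.ST
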