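import Mathlib

/-!
# Oriented stars in tournaments and in digraphs of large chromatic number
-/

set_option autoImplicit false

namespace Pool.Agent.NH50.ST

open Finset
open scoped Classical

/-- a proper colouring of the set `W` with `n` colours -/
def PCol {V : Type} (R : V → V → Prop) (W : Finset V) (n : ℕ) : Prop :=
  ∃ f : V → ℕ, (∀ a ∈ W, f a < n) ∧ ∀ a ∈ W, ∀ b ∈ W, a ≠ b → (R a b ∨ R b a) → f a ≠ f b

/-- a digraph with out-degrees `< q` has chromatic number at most `2 q - 1` -/
theorem pcol_out {V : Type} (R : V → V → Prop) (q : ℕ) : ∀ (N : ℕ) (W : Finset V), W.card = N →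
    (∀ v ∈ W, (W.filter (fun u => R v u)).card < q) → PCol R W (2 * q - 1) := by
  intro N
  induction N with
  | zero =>
    intro W hW _
    rw [Finset.card_eq_zero] at hW
    subst hW
    exact ⟨fun _ => 0, by simp, by simp⟩
  | succ N ih =>
    intro W hW hq
    have hne : W.Nonempty := by
      rw [← Finset.card_pos, hW]
      omega
    have hq1 : 1 ≤ q := by
      obtain ⟨v, hv⟩ := hne
      have := hq v hv
      omega
    -- a vertex of small degree
    obtain ⟨v, hv, hd⟩ : ∃ v ∈ W, (W.filter (fun u => R v u)).card +
        (W.filter (fun u => R u v)).card < 2 * q - 1 := by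
      by_contra hcon
      push Not at hcon
      have h1 : ∑ v ∈ W, (W.filter (fun u => R v u)).card =
          ∑ v ∈ W, (W.filter (fun u => R u v)).card :=
        Finset.sum_card_bipartiteAbove_eq_sum_card_bipartiteBelow R
      have h2 : ∑ v ∈ W, (W.filter (fun u => R v u)).card ≤ ∑ v ∈ W, (q - 1) :=
        Finset.sum_le_sum fun v hv => by
          have := hq v hv
          omega
      have h3 : ∑ v ∈ W, (2 * q - 1) ≤ ∑ v ∈ W, ((W.filter (fun u => R v u)).card +
          (W.filter (fun u => R u v)).card) := Finset.sum_le_sum fun v hv => hcon v hv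
      rw [Finset.sum_add_distrib, ← h1, Finset.sum_const, smul_eq_mul] at h3
      rw [Finset.sum_const, smul_eq_mul] at h2
      have h4 : W.card * (2 * q - 1) ≤ W.card * (q - 1) + W.card * (q - 1) := by omega
      rw [← Nat.mul_add] at h4
      have h5 := Nat.le_of_mul_le_mul_left h4 (by omega)
      omega
    obtain ⟨f, hf1, hf2⟩ := ih (W.erase v) (by rw [Finset.card_erase_of_mem hv, hW]; rfl)
      (fun u hu => lt_of_le_of_lt (Finset.card_le_card
        (Finset.filter_subset_filter _ (Finset.erase_subset v W))) (hq u (Finset.mem_of_mem_erase hu)))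
    -- a free colour
    obtain ⟨c, hc, hc'⟩ : ∃ c ∈ Finset.range (2 * q - 1),
        c ∉ ((W.filter (fun u => R v u)) ∪ (W.filter (fun u => R u v))).image f := by
      refine Finset.exists_mem_notMem_of_card_lt_card ?_
      rw [Finset.card_range]
      exact lt_of_le_of_lt (Finset.card_image_le.trans (Finset.card_union_le _ _)) hd
    rw [Finset.mem_range] at hc
    have hc2 : ∀ u ∈ W, (R v u ∨ R u v) → f u ≠ c := by
      intro u hu h h'
      apply hc'
      rw [Finset.mem_image]
      refine ⟨u, ?_, h'⟩
      rw [Finset.mem_union, Finset.mem_filter, Finset.mem_filter]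
      rcases h with h | h
      · exact Or.inl ⟨hu, h⟩
      · exact Or.inr ⟨hu, h⟩
    refine ⟨Function.update f v c, ?_, ?_⟩
    · intro a ha
      by_cases h : a = v
      · rw [h, Function.update_self]
        exact hc
      · rw [Function.update_of_ne h]
        exact hf1 a (Finset.mem_erase.2 ⟨h, ha⟩)
    · intro a ha b hb hab hR
      by_cases h : a = v
      · subst h
        rw [Function.update_self, Function.update_of_ne (Ne.symm hab)]
        exact (hc2 b hb hR).symm
      · by_cases h' : b = v
        · subst h'
          rw [Function.update_self, Function.update_of_ne hab]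
          exact hc2 a ha hR.symm
        · rw [Function.update_of_ne h, Function.update_of_ne h']
          exact hf2 a (Finset.mem_erase.2 ⟨h, ha⟩) b (Finset.mem_erase.2 ⟨h', hb⟩) hab hR

/-- a digraph in which every vertex has in-degree `< p` or out-degree `< q` has chromatic number at
most `(2 p - 1) + (2 q - 1)` -/
theorem chi_le {m : ℕ} (G : Digraph (Fin m)) (p q : ℕ)
    (h : ∀ v, (univ.filter (fun u => G.Adj u v)).card < p ∨
      (univ.filter (fun u => G.Adj v u)).card < q) :
    (SimpleGraph.fromRel G.Adj).chromaticNumber ≤ ((2 * p - 1 + (2 * q - 1) : ℕ) : ℕ∞) := by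
  set A := univ.filter (fun v => (univ.filter (fun u => G.Adj v u)).card < q) with hA
  obtain ⟨f, f1, f2⟩ := pcol_out G.Adj q _ A rfl (fun v hv => by
    rw [hA, Finset.mem_filter] at hv
    exact lt_of_le_of_lt (Finset.card_le_card (Finset.filter_subset_filter _
      (Finset.subset_univ _))) hv.2)
  obtain ⟨g, g1, g2⟩ := pcol_out (fun a b => G.Adj b a) p _ Aᶜ rfl (fun v hv => by
    rw [hA, Finset.mem_compl, Finset.mem_filter, not_and] at hv
    have h1 := (h v).resolve_right (hv (Finset.mem_univ _))
    exact lt_of_le_of_lt (Finset.card_le_card (Finset.filter_subset_filter _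
      (Finset.subset_univ _))) h1)
  have hlt : ∀ v, (if v ∈ A then f v else (2 * q - 1) + g v) < 2 * p - 1 + (2 * q - 1) := by
    intro v
    split_ifs with hv
    · have := f1 v hv
      omega
    · have := g1 v (Finset.mem_compl.2 hv)
      omega
  have hcol : (SimpleGraph.fromRel G.Adj).Colorable (2 * p - 1 + (2 * q - 1)) := by
    refine ⟨SimpleGraph.Coloring.mk
      (fun v => (⟨if v ∈ A then f v else (2 * q - 1) + g v, hlt v⟩ :
        Fin (2 * p - 1 + (2 * q - 1)))) ?_⟩
    intro a b hab heq
    rw [SimpleGraph.fromRel_adj] at hab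
    have heq' := congrArg Fin.val heq
    simp only at heq'
    by_cases ha : a ∈ A <;> by_cases hb : b ∈ A
    · rw [if_pos ha, if_pos hb] at heq'
      exact f2 a ha b hb hab.1 hab.2 heq'
    · rw [if_pos ha, if_neg hb] at heq'
      have := f1 a ha
      omega
    · rw [if_neg ha, if_pos hb] at heq'
      have := f1 b hb
      omega
    · rw [if_neg ha, if_neg hb] at heq'
      exact g2 a (Finset.mem_compl.2 ha) b (Finset.mem_compl.2 hb) hab.1 hab.2.symm (by omega)
  exact hcol.chromaticNumber_le

/-- a vertex with many in-neighbours and many out-neighbours is the centre of a star -/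
theorem embed {k m : ℕ} (T : Digraph (Fin k)) (z : Fin k)
    (hT : ∀ a b, T.Adj a b → ¬ T.Adj b a)
    (hz : ∀ a b, T.Adj a b → a = z ∨ b = z) (G : Digraph (Fin m))
    (hG : ∀ a b, G.Adj a b → ¬ G.Adj b a) (hc : ∀ a, a ≠ z → T.Adj a z ∨ T.Adj z a) (v : Fin m)
    (h1 : (univ.filter (fun a => T.Adj a z)).card ≤ (univ.filter (fun u => G.Adj u v)).card)
    (h2 : (univ.filter (fun a => T.Adj z a)).card ≤ (univ.filter (fun u => G.Adj v u)).card) :
    ∃ f : Fin k → Fin m, Function.Injective f ∧ ∀ a b, T.Adj a b → G.Adj (f a) (f b) := by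
  have e1 : Nonempty ({a // T.Adj a z} ↪ {u // G.Adj u v}) := by
    refine Function.Embedding.nonempty_of_card_le ?_
    rwa [Fintype.card_subtype, Fintype.card_subtype]
  have e2 : Nonempty ({a // T.Adj z a} ↪ {u // G.Adj v u}) := by
    refine Function.Embedding.nonempty_of_card_le ?_
    rwa [Fintype.card_subtype, Fintype.card_subtype]
  obtain ⟨e⟩ := e1
  obtain ⟨e'⟩ := e2
  have hTz : ∀ a, T.Adj a z → ¬ T.Adj z a := fun a h => hT a z h
  have hzz : ¬ T.Adj z z := fun h => hT z z h h
  have hvv : ¬ G.Adj v v := fun h => hG v v h h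
  set f : Fin k → Fin m := fun a => if h : T.Adj a z then (e ⟨a, h⟩ : Fin m) else
    if h' : T.Adj z a then (e' ⟨a, h'⟩ : Fin m) else v with hf
  have f1 : ∀ a (h : T.Adj a z), f a = e ⟨a, h⟩ := fun a h => by rw [hf]; simp only [h, dif_pos]
  have f2 : ∀ a (h : T.Adj z a), f a = e' ⟨a, h⟩ := fun a h => by
    have h' : ¬ T.Adj a z := fun h' => hTz a h' h
    rw [hf]; simp only [h, h', dif_pos, dif_neg, not_false_iff]
  have f3 : f z = v := by
    rw [hf]; simp only [hzz, dif_neg, not_false_iff]
  have g1 : ∀ a, T.Adj a z → G.Adj (f a) v := fun a h => by rw [f1 a h]; exact (e ⟨a, h⟩).2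
  have g2 : ∀ a, T.Adj z a → G.Adj v (f a) := fun a h => by rw [f2 a h]; exact (e' ⟨a, h⟩).2
  refine ⟨f, ?_, ?_⟩
  · intro a b hab
    by_cases ha : a = z
    · by_cases hb : b = z
      · rw [ha, hb]
      · exfalso
        rw [ha, f3] at hab
        rcases hc b hb with h | h
        · have := g1 b h
          rw [← hab] at this
          exact hvv this
        · have := g2 b h
          rw [← hab] at this
          exact hvv this
    · by_cases hb : b = z
      · exfalso
        rw [hb, f3] at hab
        rcases hc a ha with h | h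
        · have := g1 a h
          rw [hab] at this
          exact hvv this
        · have := g2 a h
          rw [hab] at this
          exact hvv this
      · rcases hc a ha with h | h <;> rcases hc b hb with h' | h'
        · rw [f1 a h, f1 b h'] at hab
          have := e.injective (Subtype.ext hab)
          exact congrArg Subtype.val this
        · exfalso
          have i1 := g1 a h
          have i2 := g2 b h'
          rw [hab] at i1
          exact hG _ _ i1 i2
        · exfalso
          have i1 := g2 a h
          have i2 := g1 b h'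
          rw [hab] at i1
          exact hG _ _ i1 i2
        · rw [f2 a h, f2 b h'] at hab
          have := e'.injective (Subtype.ext hab)
          exact congrArg Subtype.val this
  · intro a b hab
    rcases hz a b hab with h | h
    · subst h
      rw [f3]
      exact g2 b hab
    · subst h
      rw [f3]
      exact g1 a hab

end Pool.Agent.NH50.ST
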